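import Pool.Agent.H189.ME.Stm

/-! The number of eigenvalues in a window. -/

set_option autoImplicit false

open scoped BigOperators
open MeasureTheory Set

namespace Pool.Agent.H189.ME

theorem cnt : S_CNT := by
  intro ι _ E η α β B hη hαβ hB
  have hc : ∀ k, Continuous fun e => η / ((E k - e) ^ 2 + η ^ 2) := fun k => by
    have h : ∀ e : ℝ, (E k - e) ^ 2 + η ^ 2 ≠ 0 := fun e => by positivity
    exact Continuous.div (by fun_prop) (by fun_prop) h
  have h1 : ∀ j ∈ Finset.univ.filter (fun j => α ≤ E j ∧ E j ≤ β),
      1 ≤ ∫ e in (α - η)..(β + η), η / ((E j - e) ^ 2 + η ^ 2) := by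
    intro j hj
    obtain ⟨-, ha, hb⟩ := Finset.mem_filter.1 hj
    have h2 : ∫ e in (E j - η)..(E j + η), η / ((E j - e) ^ 2 + η ^ 2) ≤
        ∫ e in (α - η)..(β + η), η / ((E j - e) ^ 2 + η ^ 2) := by
      refine intervalIntegral.integral_mono_interval (by linarith) (by linarith) (by linarith)
        (Filter.Eventually.of_forall fun e => ?_) ((hc j).intervalIntegrable _ _)
      simp only [Pi.zero_apply]
      positivity
    refine le_trans ?_ h2
    have h3 : ∫ e in (E j - η)..(E j + η), (1 / (2 * η)) ≤
        ∫ e in (E j - η)..(E j + η), η / ((E j - e) ^ 2 + η ^ 2) := by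
      refine intervalIntegral.integral_mono_on (by linarith) (continuous_const.intervalIntegrable _ _)
        ((hc j).intervalIntegrable _ _) fun e he => ?_
      rw [div_le_div_iff₀ (by positivity) (by positivity)]
      have h4 : (E j - e) ^ 2 ≤ η ^ 2 := by
        apply sq_le_sq'
        · linarith [he.2]
        · linarith [he.1]
      nlinarith
    refine le_trans (le_of_eq ?_) h3
    rw [intervalIntegral.integral_const, smul_eq_mul]
    field_simp
    ring
  have h5 : ((Finset.univ.filter fun j => α ≤ E j ∧ E j ≤ β).card : ℝ) ≤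
      ∫ e in (α - η)..(β + η), ∑ k, η / ((E k - e) ^ 2 + η ^ 2) := by
    rw [intervalIntegral.integral_finsetSum fun k _ => (hc k).intervalIntegrable _ _]
    calc ((Finset.univ.filter fun j => α ≤ E j ∧ E j ≤ β).card : ℝ) =
        ∑ j ∈ Finset.univ.filter (fun j => α ≤ E j ∧ E j ≤ β), (1 : ℝ) := by simp
      _ ≤ ∑ j ∈ Finset.univ.filter (fun j => α ≤ E j ∧ E j ≤ β),
          ∫ e in (α - η)..(β + η), η / ((E j - e) ^ 2 + η ^ 2) := Finset.sum_le_sum h1
      _ ≤ _ := by
        refine Finset.sum_le_sum_of_subset_of_nonneg (Finset.filter_subset _ _) fun j _ _ => ?_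
        exact intervalIntegral.integral_nonneg (by linarith) fun e _ => by positivity
  have h6 : ∫ e in (α - η)..(β + η), ∑ k, η / ((E k - e) ^ 2 + η ^ 2) ≤
      ∫ e in (α - η)..(β + η), B := by
    refine intervalIntegral.integral_mono_on (by linarith)
      ((continuous_finsetSum _ fun k _ => hc k).intervalIntegrable _ _)
      (continuous_const.intervalIntegrable _ _) fun e he => hB e he.1 he.2
  rw [intervalIntegral.integral_const, smul_eq_mul] at h6
  have hB0 : 0 ≤ B := by
    refine le_trans ?_ (hB α (by linarith) (by linarith))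
    exact Finset.sum_nonneg fun k _ => by positivity
  nlinarith

end Pool.Agent.H189.ME
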