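import Pool.Agent.H189.ME.Core
import Pool.Agent.H189.ME.Cnt

/-! The weights of the matrix elements: abstract form. -/

set_option autoImplicit false
set_option linter.unusedSectionVars false
set_option linter.unusedVariables false

open scoped BigOperators
open MeasureTheory Set

namespace Pool.Agent.H189.ME

section

variable {ι : Type} [Fintype ι] (E : ι → ℝ) (m : ι → ι → ℝ)

theorem half (ϖ α β B N ε1 C0 R : ℝ) (n : ℕ) (a J : Fin n → ℝ)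
    (hJ : ∀ i, 0 < J i) (hαβ : α ≤ β) (hN : 0 ≤ N)
    (Gf gf : ℝ → ℝ) (hG : ContinuousOn Gf (Icc α β)) (hg : ContinuousOn gf (Icc α β))
    (hg0 : ∀ e ∈ Icc α β, 0 ≤ gf e) (hG0 : ∀ e ∈ Icc α β, |Gf e| ≤ C0) (hε1 : 0 ≤ ε1)
    (hlim : ∀ g : ℝ, 0 ≤ g →
      |(∑ i, a i * (J i / (J i + g))) - (1 - 2 / Real.pi * Real.arctan g)| ≤ ε1)
    (S : ℝ) (hS : |S - N * ((1 / Real.pi) * ∫ e in α..β, Gf e * ∑ i, a i * (J i / (J i + gf e)))| ≤
      R) :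
    |S - N * ((1 / Real.pi) * ∫ e in α..β, Gf e * (1 - 2 / Real.pi * Real.arctan (gf e)))| ≤
      R + N * ((1 / Real.pi) * ((β - α) * (C0 * ε1))) := by
  have hπ := Real.pi_pos
  have hc : ContinuousOn (fun e => Gf e * ∑ i, a i * (J i / (J i + gf e))) (Icc α β) := by
    refine hG.mul (continuousOn_finsetSum _ fun i _ => continuousOn_const.mul
      (continuousOn_const.div (continuousOn_const.add hg) fun e he => ?_))
    have := hg0 e he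
    have := hJ i
    positivity
  have hc' : ContinuousOn (fun e => Gf e * (1 - 2 / Real.pi * Real.arctan (gf e))) (Icc α β) :=
    hG.mul (continuousOn_const.sub (continuousOn_const.mul
      (Real.continuous_arctan.comp_continuousOn hg)))
  have hi : IntervalIntegrable (fun e => Gf e * ∑ i, a i * (J i / (J i + gf e))) volume α β := by
    apply ContinuousOn.intervalIntegrable
    rwa [uIcc_of_le hαβ]
  have hi' : IntervalIntegrable (fun e => Gf e * (1 - 2 / Real.pi * Real.arctan (gf e)))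
      volume α β := by
    apply ContinuousOn.intervalIntegrable
    rwa [uIcc_of_le hαβ]
  have h1 : |(∫ e in α..β, Gf e * ∑ i, a i * (J i / (J i + gf e))) -
      ∫ e in α..β, Gf e * (1 - 2 / Real.pi * Real.arctan (gf e))| ≤ (β - α) * (C0 * ε1) := by
    rw [← intervalIntegral.integral_sub hi hi']
    have h4 := intervalIntegral.norm_integral_le_of_norm_le_const (a := α) (b := β) (C := C0 * ε1)
      (f := fun e => Gf e * ∑ i, a i * (J i / (J i + gf e)) -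
        Gf e * (1 - 2 / Real.pi * Real.arctan (gf e))) (fun e he => by
        rw [uIoc_of_le hαβ] at he
        have he' : e ∈ Icc α β := ⟨he.1.le, he.2⟩
        rw [← mul_sub, norm_mul, Real.norm_eq_abs, Real.norm_eq_abs]
        exact mul_le_mul (hG0 e he') (hlim _ (hg0 e he')) (abs_nonneg _)
          ((abs_nonneg _).trans (hG0 e he')))
    rw [Real.norm_eq_abs, abs_of_nonneg (by linarith : 0 ≤ β - α)] at h4
    linarith
  have h2 : |N * ((1 / Real.pi) * ∫ e in α..β, Gf e * ∑ i, a i * (J i / (J i + gf e))) -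
      N * ((1 / Real.pi) * ∫ e in α..β, Gf e * (1 - 2 / Real.pi * Real.arctan (gf e)))| ≤
      N * ((1 / Real.pi) * ((β - α) * (C0 * ε1))) := by
    rw [← mul_sub, ← mul_sub, abs_mul, abs_mul, abs_of_nonneg hN,
      abs_of_pos (by positivity : 0 < 1 / Real.pi)]
    gcongr
  exact (abs_sub_le _ _ _).trans (add_le_add hS h2)

theorem weights (hLEAK : S_LEAK) (hm : ∀ j k, 0 ≤ m j k) (h1 : ∀ j, ∑ k, m j k = 1)
    (h2 : ∀ k, ∑ j, m j k = 1) (ϖ ρ α β B N δ ζ ε1 C0 : ℝ) (n n' : ℕ) (a J : Fin n → ℝ)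
    (a' J' : Fin n' → ℝ) (hJ : ∀ i, 0 < J i) (hJ' : ∀ i, 0 < J' i) (hϖ : 0 < ϖ) (hN : 0 ≤ N)
    (hB0 : 0 ≤ B) (hζ : ∀ i, J i * ϖ / 2 / ρ ≤ ζ ^ 2) (hζ' : ∀ i, J' i * ϖ / 2 / ρ ≤ ζ ^ 2)
    (hζ0 : 0 ≤ ζ) (hζ1 : ζ ≤ 1) (hρ0 : 0 < ρ) (hρ : 2 * ρ ≤ β - α)
    (hB : ∀ i, ∀ e, α - ρ ≤ e → e ≤ β + ρ →
      ∑ k, (J i * ϖ / 2) / ((E k - e) ^ 2 + (J i * ϖ / 2) ^ 2) ≤ B)
    (hBB : ∀ i, ∀ e, α - ρ ≤ e → e ≤ β + ρ →
      ∑ k, (J' i * ϖ / 2) / ((E k - e) ^ 2 + (J' i * ϖ / 2) ^ 2) ≤ B)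
    (hB' : ∀ e, α - ρ ≤ e → e ≤ β + ρ → ∑ k, ρ / ((E k - e) ^ 2 + ρ ^ 2) ≤ B)
    (Gf gf : ℝ → ℝ) (hG : ContinuousOn Gf (Icc α β)) (hg : ContinuousOn gf (Icc α β))
    (hg0 : ∀ e ∈ Icc α β, 0 ≤ gf e) (hG0 : ∀ e ∈ Icc α β, |Gf e| ≤ C0) (hε1 : 0 ≤ ε1)
    (hprof : ∀ i, ∀ e, α ≤ e → e ≤ β →
      |∑ j, ∑ k, m j k * pk (J i * ϖ / 2) (E j) (E k) e - N * (Gf e * (J i / (J i + gf e)))| ≤
        N * δ)
    (hprof' : ∀ i, ∀ e, α ≤ e → e ≤ β →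
      |∑ j, ∑ k, m j k * pk (J' i * ϖ / 2) (E j) (E k) e - N * (Gf e * (J' i / (J' i + gf e)))| ≤
        N * δ)
    (hlo : ∀ t : ℝ, (∑ i, a i * (J i ^ 2 / (J i ^ 2 + t ^ 2))) - ε1 ≤ if |t| ≤ 1 then 1 else 0)
    (hup : ∀ t : ℝ, (if |t| ≤ 1 then 1 else 0) ≤
      (∑ i, a' i * (J' i ^ 2 / (J' i ^ 2 + t ^ 2))) + ε1)
    (hlim : ∀ g : ℝ, 0 ≤ g →
      |(∑ i, a i * (J i / (J i + g))) - (1 - 2 / Real.pi * Real.arctan g)| ≤ ε1 ∧
      |(∑ i, a' i * (J' i / (J' i + g))) - (1 - 2 / Real.pi * Real.arctan g)| ≤ ε1) :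
    |∑ j, ∑ k, (if (α ≤ E j ∧ E j ≤ β) ∧ |E j - E k| ≤ ϖ then m j k else 0) -
      N * ((1 / Real.pi) * ∫ e in α..β, Gf e * (1 - 2 / Real.pi * Real.arctan (gf e)))| ≤
      ((∑ i, |a i|) + ∑ i, |a' i|) * (4 * B * (ρ + (β - α) * ζ) +
        (1 / Real.pi) * ((β - α) * (N * δ))) + N * ((1 / Real.pi) * ((β - α) * (C0 * ε1))) +
      ε1 * (2 * B * (β - α)) := by
  classical
  have hαβ : α ≤ β := by linarith
  have hπ := Real.pi_pos
  have c1 := comb E m hLEAK hm h1 h2 ϖ ρ α β B N δ ζ n a J hJ hϖ hN hB0 hζ hζ0 hζ1 hρ0 hρ hB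
    (fun e he he' => hB' e (by linarith) (by linarith)) Gf gf hG hg hg0 hprof
  have c2 := comb E m hLEAK hm h1 h2 ϖ ρ α β B N δ ζ n' a' J' hJ' hϖ hN hB0 hζ' hζ0 hζ1 hρ0 hρ hBB
    (fun e he he' => hB' e (by linarith) (by linarith)) Gf gf hG hg hg0 hprof'
  have d1 := half ϖ α β B N ε1 C0 _ n a J hJ hαβ hN Gf gf hG hg hg0 hG0 hε1
    (fun g hg => (hlim g hg).1) _ c1
  have d2 := half ϖ α β B N ε1 C0 _ n' a' J' hJ' hαβ hN Gf gf hG hg hg0 hG0 hε1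
    (fun g hg => (hlim g hg).2) _ c2
  have hcard := cnt ι E ρ α β B hρ0 hρ hB'
  obtain ⟨NI, hNI⟩ : ∃ NI : ℝ, NI = ((Finset.univ.filter fun j => α ≤ E j ∧ E j ≤ β).card : ℝ) :=
    ⟨_, rfl⟩
  rw [← hNI] at hcard
  have hsumI : ∑ j, ∑ k, m j k * (if α ≤ E j ∧ E j ≤ β then ε1 else 0) = ε1 * NI := by
    have f1 : ∀ j, ∑ k, m j k * (if α ≤ E j ∧ E j ≤ β then ε1 else 0) =
        if α ≤ E j ∧ E j ≤ β then ε1 else 0 := by
      intro j
      rw [← Finset.sum_mul, h1 j, one_mul]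
    simp only [f1]
    rw [hNI, ← Finset.sum_filter, Finset.sum_const, nsmul_eq_mul, mul_comm]
  obtain ⟨X, hX⟩ : ∃ X, X = ∑ j, ∑ k, (if (α ≤ E j ∧ E j ≤ β) ∧ |E j - E k| ≤ ϖ then m j k
    else 0) := ⟨_, rfl⟩
  have habs : ∀ j k, |E j - E k| ≤ ϖ ↔ |(E j - E k) / ϖ| ≤ 1 := by
    intro j k
    rw [abs_div, abs_of_pos hϖ, div_le_one hϖ]
  have u1 : X ≤ (∑ j, ∑ k, m j k * (if α ≤ E j ∧ E j ≤ β then
      ∑ i, a' i * (J' i ^ 2 / (J' i ^ 2 + ((E j - E k) / ϖ) ^ 2)) else 0)) + ε1 * NI := by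
    rw [← hsumI, ← Finset.sum_add_distrib, hX]
    refine Finset.sum_le_sum fun j _ => ?_
    rw [← Finset.sum_add_distrib]
    refine Finset.sum_le_sum fun k _ => ?_
    have := hup ((E j - E k) / ϖ)
    by_cases hI : α ≤ E j ∧ E j ≤ β
    · rw [if_pos hI, if_pos hI, ← mul_add]
      by_cases hk : |E j - E k| ≤ ϖ
      · rw [if_pos ⟨hI, hk⟩]
        rw [if_pos ((habs j k).1 hk)] at this
        nlinarith [hm j k]
      · rw [if_neg fun h => hk h.2]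
        rw [if_neg fun h => hk ((habs j k).2 h)] at this
        exact mul_nonneg (hm j k) this
    · rw [if_neg fun h => hI h.1, if_neg hI, if_neg hI]
      simp
  have u2 : (∑ j, ∑ k, m j k * (if α ≤ E j ∧ E j ≤ β then
      ∑ i, a i * (J i ^ 2 / (J i ^ 2 + ((E j - E k) / ϖ) ^ 2)) else 0)) - ε1 * NI ≤ X := by
    rw [← hsumI, ← Finset.sum_sub_distrib, hX]
    refine Finset.sum_le_sum fun j _ => ?_
    rw [← Finset.sum_sub_distrib]
    refine Finset.sum_le_sum fun k _ => ?_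
    have := hlo ((E j - E k) / ϖ)
    by_cases hI : α ≤ E j ∧ E j ≤ β
    · rw [if_pos hI, if_pos hI, ← mul_sub]
      by_cases hk : |E j - E k| ≤ ϖ
      · rw [if_pos ⟨hI, hk⟩]
        rw [if_pos ((habs j k).1 hk)] at this
        nlinarith [hm j k]
      · rw [if_neg fun h => hk h.2]
        rw [if_neg fun h => hk ((habs j k).2 h)] at this
        nlinarith [hm j k]
    · rw [if_neg hI, if_neg hI, if_neg fun h => hI h.1]
      simp
  rw [← hX]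
  have e1 := abs_le.1 d1
  have e2 := abs_le.1 d2
  obtain ⟨Q, hQ⟩ : ∃ Q, Q = 4 * B * (ρ + (β - α) * ζ) + (1 / Real.pi) * ((β - α) * (N * δ)) :=
    ⟨_, rfl⟩
  rw [← hQ] at e1 e2 ⊢
  have hQ0 : (∑ i, |a i|) * Q ≤ ((∑ i, |a i|) + ∑ i, |a' i|) * Q ∧
      (∑ i, |a' i|) * Q ≤ ((∑ i, |a i|) + ∑ i, |a' i|) * Q := by
    have g1 : 0 ≤ ∑ i, |a i| := Finset.sum_nonneg fun i _ => abs_nonneg _
    have g2 : 0 ≤ ∑ i, |a' i| := Finset.sum_nonneg fun i _ => abs_nonneg _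
    have hpe : (∑ i, |a i|) * Q + (∑ i, |a' i|) * Q = ((∑ i, |a i|) + ∑ i, |a' i|) * Q := by ring
    have r1 : 0 ≤ (∑ i, |a i|) * Q := by rw [hQ]; exact (abs_nonneg _).trans c1
    have r2 : 0 ≤ (∑ i, |a' i|) * Q := by rw [hQ]; exact (abs_nonneg _).trans c2
    constructor <;> linarith
  have hNI' : ε1 * NI ≤ ε1 * (2 * B * (β - α)) := mul_le_mul_of_nonneg_left hcard hε1
  rw [abs_le]
  constructor
  · linarith [e1.1, hQ0.1]
  · linarith [e2.2, hQ0.2]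

end

end Pool.Agent.H189.ME
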