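import Mathlib

set_option autoImplicit false

namespace Pool.Agent.H189.ME.APX

open Filter Topology Polynomial

abbrev I01 : Type := Set.Icc (0 : ℝ) 1

theorem den_pos {h : ℝ} (hh : 0 ≤ h) (z : I01) : 0 < 1 + h * (1 - (z : ℝ)) := by
  have h1 : 0 ≤ 1 - (z : ℝ) := by linarith [z.2.2]
  have := mul_nonneg hh h1
  linarith

/-- `z (-(1-z))^n / (1 + h (1-z))` -/
noncomputable def R (n : ℕ) (h : ℝ) (hh : 0 ≤ h) : C(I01, ℝ) where
  toFun z := (z : ℝ) * (-(1 - (z : ℝ))) ^ n / (1 + h * (1 - (z : ℝ)))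
  continuous_toFun := by
    apply Continuous.div
    · fun_prop
    · fun_prop
    · intro z; exact (den_pos hh z).ne'

theorem R_apply (n : ℕ) (h : ℝ) (hh : 0 ≤ h) (z : I01) :
    R n h hh z = (z : ℝ) * (-(1 - (z : ℝ))) ^ n / (1 + h * (1 - (z : ℝ))) := rfl

noncomputable def K (h : {h : ℝ // 0 ≤ h}) : C(I01, ℝ) := R 0 h.1 h.2

noncomputable def S : Submodule ℝ C(I01, ℝ) := (Submodule.span ℝ (Set.range K)).topologicalClosure

theorem R_succ (n : ℕ) (h : ℝ) (hh : 0 < h) :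
    R (n + 1) h hh.le = h⁻¹ • (R n h hh.le - R n 0 le_rfl) := by
  ext z
  rw [ContinuousMap.smul_apply, ContinuousMap.sub_apply, R_apply, R_apply, R_apply, smul_eq_mul]
  have h1 := (den_pos hh.le z).ne'
  have h2 := hh.ne'
  rw [zero_mul, add_zero, div_one]
  obtain ⟨D, hD⟩ : ∃ D, D = 1 + h * (1 - (z : ℝ)) := ⟨_, rfl⟩
  rw [← hD] at h1 ⊢
  have hw : h * (1 - (z : ℝ)) = D - 1 := by rw [hD]; ring
  have e1 : (z : ℝ) * (-(1 - (z : ℝ))) ^ n / D - (z : ℝ) * (-(1 - (z : ℝ))) ^ n =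
      h * ((z : ℝ) * (-(1 - (z : ℝ))) ^ (n + 1) / D) := by
    rw [pow_succ]
    field_simp
    linear_combination (z : ℝ) * (-(1 - (z : ℝ))) ^ n * hw
  rw [e1, ← mul_assoc, inv_mul_cancel₀ h2, one_mul]

theorem R_close (n : ℕ) (h : ℝ) (hh : 0 ≤ h) : ‖R n h hh - R n 0 le_rfl‖ ≤ h := by
  rw [ContinuousMap.norm_le _ hh]
  intro z
  rw [ContinuousMap.sub_apply, R_apply, R_apply]
  have h1 := den_pos hh z
  have hz0 : 0 ≤ (z : ℝ) := z.2.1
  have hz1 : (z : ℝ) ≤ 1 := z.2.2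
  have hw0 : 0 ≤ 1 - (z : ℝ) := by linarith
  have e : (z : ℝ) * (-(1 - (z : ℝ))) ^ n / (1 + h * (1 - (z : ℝ))) -
      (z : ℝ) * (-(1 - (z : ℝ))) ^ n / (1 + 0 * (1 - (z : ℝ))) =
      h * ((z : ℝ) * (-(1 - (z : ℝ))) ^ n * (-(1 - (z : ℝ))) / (1 + h * (1 - (z : ℝ)))) := by
    rw [zero_mul, add_zero, div_one]
    field_simp
    ring
  rw [e, Real.norm_eq_abs, abs_mul, abs_of_nonneg hh]
  have h2 : |(z : ℝ) * (-(1 - (z : ℝ))) ^ n * (-(1 - (z : ℝ))) / (1 + h * (1 - (z : ℝ)))| ≤ 1 := by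
    rw [abs_div, abs_of_pos h1, div_le_one h1, abs_mul, abs_mul, abs_pow, abs_neg, abs_of_nonneg hz0,
      abs_of_nonneg hw0]
    have h3 : (1 - (z : ℝ)) ^ n ≤ 1 := pow_le_one₀ hw0 (by linarith)
    have h4 : 0 ≤ (1 - (z : ℝ)) ^ n := pow_nonneg hw0 n
    have h5 : (z : ℝ) * (1 - (z : ℝ)) ^ n ≤ 1 := by nlinarith
    have h6 : 0 ≤ (z : ℝ) * (1 - (z : ℝ)) ^ n := mul_nonneg hz0 h4
    have h7 : (z : ℝ) * (1 - (z : ℝ)) ^ n * (1 - (z : ℝ)) ≤ 1 := by nlinarith
    have h8 := mul_nonneg hh hw0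
    linarith
  nlinarith

theorem R_mem (n : ℕ) : ∀ (h : ℝ) (hh : 0 ≤ h), R n h hh ∈ S := by
  induction n with
  | zero =>
    intro h hh
    exact Submodule.le_topologicalClosure _ (Submodule.subset_span ⟨⟨h, hh⟩, rfl⟩)
  | succ n ih =>
    have hpos : ∀ (h : ℝ) (hh : 0 < h), R (n + 1) h hh.le ∈ S := by
      intro h hh
      rw [R_succ n h hh]
      exact S.smul_mem _ (S.sub_mem (ih _ _) (ih _ _))
    intro h hh
    rcases hh.eq_or_lt with h0 | h0
    · subst h0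
      have hcl : IsClosed (S : Set C(I01, ℝ)) := Submodule.isClosed_topologicalClosure _
      have hk : ∀ k : ℕ, (0 : ℝ) < 1 / ((k : ℝ) + 1) := fun k => by positivity
      refine hcl.mem_of_tendsto (b := atTop) (f := fun k : ℕ => R (n + 1) (1 / ((k : ℝ) + 1)) (hk k).le) ?_
        (Eventually.of_forall fun k => hpos _ (hk k))
      rw [tendsto_iff_norm_sub_tendsto_zero]
      refine squeeze_zero (fun k => norm_nonneg _) (fun k => R_close (n + 1) _ (hk k).le) ?_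
      exact tendsto_one_div_add_atTop_nhds_zero_nat
    · exact hpos h h0

/-- `z p(1-z)` -/
noncomputable def G (p : ℝ[X]) : C(I01, ℝ) where
  toFun z := (z : ℝ) * p.eval (1 - (z : ℝ))
  continuous_toFun := by
    apply Continuous.mul
    · fun_prop
    · exact p.continuous.comp (by fun_prop)

theorem G_mem (p : ℝ[X]) : G p ∈ S := by
  induction p using Polynomial.induction_on' with
  | add p q hp hq =>
    have e : G (p + q) = G p + G q := by
      ext z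
      show (z : ℝ) * (p + q).eval (1 - (z : ℝ)) = (z : ℝ) * p.eval (1 - (z : ℝ)) + (z : ℝ) * q.eval (1 - (z : ℝ))
      rw [Polynomial.eval_add, mul_add]
    rw [e]; exact S.add_mem hp hq
  | monomial n a =>
    have e : G (Polynomial.monomial n a) = (a * (-1) ^ n) • R n 0 le_rfl := by
      ext z
      rw [ContinuousMap.smul_apply, R_apply, smul_eq_mul]
      show (z : ℝ) * (Polynomial.monomial n a).eval (1 - (z : ℝ)) = _
      rw [Polynomial.eval_monomial, zero_mul, add_zero, div_one, neg_pow (1 - (z : ℝ)) n]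
      have h1 : ((-1 : ℝ) ^ n) * (-1) ^ n = 1 := by rw [← mul_pow]; norm_num
      linear_combination (-(a * (z : ℝ) * (1 - (z : ℝ)) ^ n)) * h1
    rw [e]; exact S.smul_mem _ (R_mem n 0 le_rfl)

/-- TARGET -/
theorem apx : ∀ f : ℝ → ℝ, ContinuousOn f (Set.Icc 0 1) → f 0 = 0 → ∀ ε : ℝ, 0 < ε →
  ∃ (n : ℕ) (a J : Fin n → ℝ), (∀ i, 0 < J i) ∧
    ∀ t : ℝ, |f (1 / (1 + t ^ 2)) - ∑ i, a i * (J i ^ 2 / (J i ^ 2 + t ^ 2))| ≤ ε := by
  classical
  intro f hf hf0 ε hε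
  obtain ⟨P, hP⟩ := exists_polynomial_near_of_continuousOn 0 1 f hf (ε / 4) (by linarith)
  -- the polynomial without constant term
  set Q : ℝ[X] := P.divX with hQ
  have hPQ : ∀ x : ℝ, P.eval x = x * Q.eval x + P.eval 0 := by
    intro x
    have h := congrArg (Polynomial.eval x) (Polynomial.divX_mul_X_add P)
    rw [Polynomial.eval_add, Polynomial.eval_mul, Polynomial.eval_X, Polynomial.eval_C] at h
    rw [← h, Polynomial.coeff_zero_eq_eval_zero]
    ring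
  have hG := G_mem (Q.comp (1 - Polynomial.X))
  have hG2 : G (Q.comp (1 - Polynomial.X)) ∈ closure ((Submodule.span ℝ (Set.range K) : Submodule ℝ C(I01, ℝ)) : Set C(I01, ℝ)) := hG
  obtain ⟨g, hg, hgd⟩ := Metric.mem_closure_iff.1 hG2 (ε / 4) (by linarith)
  obtain ⟨c, hc⟩ := (Finsupp.mem_span_range_iff_exists_finsupp).1 hg
  let e := c.support.equivFin
  refine ⟨c.support.card, fun i => c (e.symm i).1, fun i => Real.sqrt (1 / (1 + ((e.symm i).1 : ℝ))), ?_, ?_⟩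
  · intro i
    apply Real.sqrt_pos.2
    have := (e.symm i).1.2
    positivity
  · intro t
    have hz0 : (0 : ℝ) ≤ 1 / (1 + t ^ 2) := by positivity
    have hz1 : 1 / (1 + t ^ 2) ≤ (1 : ℝ) := by
      rw [div_le_one (by positivity)]; nlinarith [sq_nonneg t]
    set z : I01 := ⟨1 / (1 + t ^ 2), hz0, hz1⟩ with hz
    have hzv : (z : ℝ) = 1 / (1 + t ^ 2) := rfl
    have h1 : ∀ h : {h : ℝ // 0 ≤ h}, (Real.sqrt (1 / (1 + (h : ℝ)))) ^ 2 /
        ((Real.sqrt (1 / (1 + (h : ℝ)))) ^ 2 + t ^ 2) = K h z := by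
      intro h
      have hh := h.2
      rw [Real.sq_sqrt (by positivity)]
      show _ = (z : ℝ) * (-(1 - (z : ℝ))) ^ 0 / (1 + h.1 * (1 - (z : ℝ)))
      rw [hzv, pow_zero, mul_one]
      have h2 : (1 : ℝ) + t ^ 2 ≠ 0 := by positivity
      have h3 : (1 : ℝ) + (h : ℝ) ≠ 0 := by positivity
      have h4 : (1 : ℝ) + (1 + (h : ℝ)) * t ^ 2 ≠ 0 := by positivity
      have e1 : 1 / (1 + (h : ℝ)) + t ^ 2 = (1 + (1 + (h : ℝ)) * t ^ 2) / (1 + (h : ℝ)) := by
        field_simp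
      have e2 : 1 + (h : ℝ) * (1 - 1 / (1 + t ^ 2)) = (1 + (1 + (h : ℝ)) * t ^ 2) / (1 + t ^ 2) := by
        field_simp
        ring
      rw [e1, e2]
      field_simp
    have hsum : ∑ i, c (e.symm i).1 * ((Real.sqrt (1 / (1 + ((e.symm i).1 : ℝ)))) ^ 2 /
        ((Real.sqrt (1 / (1 + ((e.symm i).1 : ℝ)))) ^ 2 + t ^ 2)) = g z := by
      rw [← hc, Finsupp.sum, ContinuousMap.sum_apply]
      rw [← Finset.sum_coe_sort c.support (fun h => (c h • K h) z)]
      rw [← Equiv.sum_comp e.symm (fun h : c.support => (c (h : {h : ℝ // 0 ≤ h}) • K (h : {h : ℝ // 0 ≤ h})) z)]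
      refine Finset.sum_congr rfl (fun i _ => ?_)
      rw [h1, ContinuousMap.smul_apply, smul_eq_mul]
    rw [hsum]
    have ha := hP (z : ℝ) z.2
    have hb := hP 0 ⟨le_rfl, zero_le_one⟩
    rw [hf0, sub_zero] at hb
    have hd : |G (Q.comp (1 - Polynomial.X)) z - g z| ≤ dist (G (Q.comp (1 - Polynomial.X))) g := by
      rw [← Real.dist_eq]
      exact ContinuousMap.dist_apply_le_dist z
    have hGz : G (Q.comp (1 - Polynomial.X)) z = (z : ℝ) * Q.eval (z : ℝ) := by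
      show (z : ℝ) * (Q.comp (1 - Polynomial.X)).eval (1 - (z : ℝ)) = _
      rw [Polynomial.eval_comp]
      congr 2
      simp
    rw [hGz] at hd
    have hPz := hPQ (z : ℝ)
    rw [← hzv]
    rw [hPz] at ha
    have k1 := abs_lt.1 ha
    have k2 := abs_lt.1 hb
    have k3 := abs_le.1 hd
    rw [abs_le]
    constructor <;> linarith [k1.1, k1.2, k2.1, k2.2, k3.1, k3.2]

end Pool.Agent.H189.ME.APX
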