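import Mathlib

set_option autoImplicit false

namespace Pool.Agent.H189.ME.CAU

open MeasureTheory Filter Topology

theorem cau_eq (g : ℝ) (hg : 0 < g) (t : ℝ) :
    g / Real.pi / (t ^ 2 + g ^ 2) = (1 / (Real.pi * g)) * (1 + (t / g) ^ 2)⁻¹ := by
  have hp := Real.pi_pos
  have h1 : 0 < t ^ 2 + g ^ 2 := by positivity
  have h2 : (1 : ℝ) + (t / g) ^ 2 = (t ^ 2 + g ^ 2) / g ^ 2 := by
    field_simp
    ring
  rw [h2, inv_div]
  field_simp

theorem cau_int (g : ℝ) (hg : 0 < g) :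
    Integrable (fun t : ℝ => g / Real.pi / (t ^ 2 + g ^ 2)) := by
  have h : (fun t : ℝ => g / Real.pi / (t ^ 2 + g ^ 2)) =
      fun t : ℝ => (1 / (Real.pi * g)) * (1 + (t / g) ^ 2)⁻¹ := by
    funext t
    exact cau_eq g hg t
  rw [h]
  exact (integrable_inv_one_add_sq.comp_div hg.ne').const_mul _

theorem cau_one (g : ℝ) (hg : 0 < g) :
    (∫ t : ℝ, g / Real.pi / (t ^ 2 + g ^ 2)) = 1 := by
  have hp := Real.pi_pos
  have h : (fun t : ℝ => g / Real.pi / (t ^ 2 + g ^ 2)) =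
      fun t : ℝ => (1 / (Real.pi * g)) * (1 + (t / g) ^ 2)⁻¹ := by
    funext t
    exact cau_eq g hg t
  rw [h, integral_const_mul, MeasureTheory.Measure.integral_comp_div (fun x : ℝ => (1 + x ^ 2)⁻¹) g,
    integral_univ_inv_one_add_sq, abs_of_pos hg, smul_eq_mul]
  field_simp

theorem cau_interval (g : ℝ) (hg : 0 < g) :
    (∫ t in (-1 : ℝ)..1, g / Real.pi / (t ^ 2 + g ^ 2)) = 1 - 2 / Real.pi * Real.arctan g := by
  have hp := Real.pi_pos
  have h : (fun t : ℝ => g / Real.pi / (t ^ 2 + g ^ 2)) =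
      fun t : ℝ => (1 / (Real.pi * g)) * (1 + (t / g) ^ 2)⁻¹ := by
    funext t
    exact cau_eq g hg t
  rw [h, intervalIntegral.integral_const_mul,
    intervalIntegral.integral_comp_div (fun x : ℝ => (1 + x ^ 2)⁻¹) hg.ne', integral_inv_one_add_sq,
    smul_eq_mul, neg_div, Real.arctan_neg, one_div, one_div, Real.arctan_inv_of_pos hg]
  field_simp
  ring

theorem cau_int2 (g J : ℝ) (hg : 0 < g) (hJ : 0 < J) :
    Integrable (fun t : ℝ => g / Real.pi / (t ^ 2 + g ^ 2) * (J ^ 2 / (J ^ 2 + t ^ 2))) := by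
  refine (cau_int g hg).mono ?_ (Eventually.of_forall fun t => ?_)
  · refine Continuous.aestronglyMeasurable ?_
    have h1 : ∀ t : ℝ, t ^ 2 + g ^ 2 ≠ 0 := fun t => by positivity
    have h2 : ∀ t : ℝ, J ^ 2 + t ^ 2 ≠ 0 := fun t => by positivity
    exact (continuous_const.div (by fun_prop) h1).mul (continuous_const.div (by fun_prop) h2)
  · rw [norm_mul]
    have h3 : ‖J ^ 2 / (J ^ 2 + t ^ 2)‖ ≤ 1 := by
      rw [Real.norm_of_nonneg (by positivity), div_le_one (by positivity)]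
      nlinarith [sq_nonneg t]
    exact mul_le_of_le_one_right (norm_nonneg _) h3

theorem cau_last_ne (g J : ℝ) (hg : 0 < g) (hJ : 0 < J) (hne : J ≠ g) :
    ∫ t : ℝ, g / Real.pi / (t ^ 2 + g ^ 2) * (J ^ 2 / (J ^ 2 + t ^ 2)) = J / (J + g) := by
  have hp := Real.pi_pos
  have hd : J ^ 2 - g ^ 2 ≠ 0 := by
    have : J ^ 2 - g ^ 2 = (J - g) * (J + g) := by ring
    rw [this]
    exact mul_ne_zero (sub_ne_zero.2 hne) (by positivity)
  have h : (fun t : ℝ => g / Real.pi / (t ^ 2 + g ^ 2) * (J ^ 2 / (J ^ 2 + t ^ 2))) =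
      fun t : ℝ => (J ^ 2 / (J ^ 2 - g ^ 2)) * (g / Real.pi / (t ^ 2 + g ^ 2)) -
        (g * J / (J ^ 2 - g ^ 2)) * (J / Real.pi / (t ^ 2 + J ^ 2)) := by
    funext t
    have h1 : t ^ 2 + g ^ 2 ≠ 0 := by positivity
    have h2 : J ^ 2 + t ^ 2 ≠ 0 := by positivity
    have h3 : t ^ 2 + J ^ 2 ≠ 0 := by positivity
    field_simp
    ring
  rw [h, integral_sub ((cau_int g hg).const_mul _) ((cau_int J hJ).const_mul _), integral_const_mul,
    integral_const_mul, cau_one g hg, cau_one J hJ]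
  have h4 : J + g ≠ 0 := by positivity
  field_simp
  ring

theorem cau_tendsto {l : Filter ℝ} (g : ℝ) (hl : Tendsto (fun t : ℝ => |t|) l atTop) :
    Tendsto (fun t : ℝ => t / (t ^ 2 + g ^ 2)) l (𝓝 0) := by
  refine squeeze_zero_norm (a := fun t : ℝ => |t|⁻¹) (fun t => ?_) (tendsto_inv_atTop_zero.comp hl)
  rcases eq_or_ne t 0 with rfl | ht
  · simp
  · have h1 : 0 < |t| := abs_pos.2 ht
    have h2 : 0 < t ^ 2 + g ^ 2 := by positivity
    rw [norm_div, Real.norm_eq_abs, Real.norm_of_nonneg h2.le, ← one_div, div_le_div_iff₀ h2 h1]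
    rw [← sq, sq_abs, one_mul]
    nlinarith [sq_nonneg g]

theorem cau_last_eq (g : ℝ) (hg : 0 < g) :
    ∫ t : ℝ, g / Real.pi / (t ^ 2 + g ^ 2) * (g ^ 2 / (g ^ 2 + t ^ 2)) = g / (g + g) := by
  have hp := Real.pi_pos
  have hder : ∀ t : ℝ, HasDerivAt
      (fun t : ℝ => g / (2 * Real.pi) * (t / (t ^ 2 + g ^ 2)) + 1 / (2 * Real.pi) * Real.arctan (t / g))
      (g / Real.pi / (t ^ 2 + g ^ 2) * (g ^ 2 / (g ^ 2 + t ^ 2))) t := by
    intro t
    have h2 : t ^ 2 + g ^ 2 ≠ 0 := by positivity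
    have h3 : g ^ 2 + t ^ 2 ≠ 0 := by positivity
    have h4 : (1 : ℝ) + (t / g) ^ 2 ≠ 0 := by positivity
    have d1 : HasDerivAt (fun t : ℝ => t ^ 2 + g ^ 2) (2 * t) t := by
      have := (hasDerivAt_pow 2 t).add_const (g ^ 2)
      simpa using this
    have d2 := ((hasDerivAt_id' t).div d1 h2).const_mul (g / (2 * Real.pi))
    have d3 := (((hasDerivAt_id' t).div_const g).arctan).const_mul (1 / (2 * Real.pi))
    have d4 := d2.add d3
    refine d4.congr_deriv ?_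
    have h5 : (1 : ℝ) + (t / g) ^ 2 = (t ^ 2 + g ^ 2) / g ^ 2 := by
      field_simp
      ring
    rw [h5]
    field_simp
    ring
  have htop : Tendsto
      (fun t : ℝ => g / (2 * Real.pi) * (t / (t ^ 2 + g ^ 2)) + 1 / (2 * Real.pi) * Real.arctan (t / g))
      atTop (𝓝 (g / (2 * Real.pi) * 0 + 1 / (2 * Real.pi) * (Real.pi / 2))) := by
    refine ((cau_tendsto g tendsto_abs_atTop_atTop).const_mul _).add (Tendsto.const_mul _ ?_)
    have h1 : Tendsto Real.arctan atTop (𝓝 (Real.pi / 2)) :=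
      tendsto_nhds_of_tendsto_nhdsWithin Real.tendsto_arctan_atTop
    exact h1.comp (tendsto_id.atTop_div_const hg)
  have hbot : Tendsto
      (fun t : ℝ => g / (2 * Real.pi) * (t / (t ^ 2 + g ^ 2)) + 1 / (2 * Real.pi) * Real.arctan (t / g))
      atBot (𝓝 (g / (2 * Real.pi) * 0 + 1 / (2 * Real.pi) * (-(Real.pi / 2)))) := by
    refine ((cau_tendsto g tendsto_abs_atBot_atTop).const_mul _).add (Tendsto.const_mul _ ?_)
    have h1 : Tendsto Real.arctan atBot (𝓝 (-(Real.pi / 2))) :=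
      tendsto_nhds_of_tendsto_nhdsWithin Real.tendsto_arctan_atBot
    exact h1.comp (tendsto_id.atBot_div_const hg)
  rw [integral_of_hasDerivAt_of_tendsto hder (cau_int2 g g hg hg) hbot htop]
  field_simp
  ring

theorem cau : ∀ g J : ℝ, 0 < g → 0 < J →
  MeasureTheory.Integrable (fun t : ℝ => g / Real.pi / (t ^ 2 + g ^ 2)) ∧
  (∫ t : ℝ, g / Real.pi / (t ^ 2 + g ^ 2)) = 1 ∧
  (∫ t in (-1 : ℝ)..1, g / Real.pi / (t ^ 2 + g ^ 2)) = 1 - 2 / Real.pi * Real.arctan g ∧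
  ∫ t : ℝ, g / Real.pi / (t ^ 2 + g ^ 2) * (J ^ 2 / (J ^ 2 + t ^ 2)) = J / (J + g) := by
  intro g J hg hJ
  refine ⟨cau_int g hg, cau_one g hg, cau_interval g hg, ?_⟩
  rcases eq_or_ne J g with rfl | hne
  · exact cau_last_eq J hJ
  · exact cau_last_ne g J hg hJ hne

end Pool.Agent.H189.ME.CAU
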