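import Mathlib

set_option autoImplicit false

namespace Pool.Agent.H189.ME.LEAK

open MeasureTheory

noncomputable def pk (η u v e : ℝ) : ℝ :=
  η * ((u - e) * (v - e) + η ^ 2) / (((u - e) ^ 2 + η ^ 2) * ((v - e) ^ 2 + η ^ 2))

/-- the Poisson kernel without the constant -/
noncomputable def PP (η u e : ℝ) : ℝ := η / ((u - e) ^ 2 + η ^ 2)

theorem PP_nonneg {η : ℝ} (hη : 0 < η) (u e : ℝ) : 0 ≤ PP η u e := by
  unfold PP; positivity

theorem pk_diag {η : ℝ} (hη : 0 < η) (u : ℝ) : pk η u u = PP η u := by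
  ext e
  unfold pk PP
  have h : 0 < (u - e) ^ 2 + η ^ 2 := by positivity
  rw [← sq, mul_div_mul_right _ _ h.ne']

theorem pk_le {η σ : ℝ} (hη : 0 < η) (hσ : 0 < σ) (u v e : ℝ) :
    |pk η u v e| ≤ (PP η u e / σ + σ * PP η v e) / 2 := by
  obtain ⟨x, hx⟩ : ∃ x, x = u - e := ⟨_, rfl⟩
  obtain ⟨y, hy⟩ : ∃ y, y = v - e := ⟨_, rfl⟩
  unfold pk PP
  rw [← hx, ← hy]
  have hA : 0 < x ^ 2 + η ^ 2 := by positivity
  have hB : 0 < y ^ 2 + η ^ 2 := by positivity
  have key : |x * y + η ^ 2| ≤ ((y ^ 2 + η ^ 2) / σ + σ * (x ^ 2 + η ^ 2)) / 2 := by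
    have h1 : |x * y + η ^ 2| ≤ |x| * |y| + η ^ 2 := by
      refine (abs_add_le _ _).trans ?_
      rw [abs_mul, abs_of_nonneg (sq_nonneg η)]
    refine h1.trans ?_
    have h2 : ((y ^ 2 + η ^ 2) / σ + σ * (x ^ 2 + η ^ 2)) / 2 =
        ((y ^ 2 + η ^ 2) + σ ^ 2 * (x ^ 2 + η ^ 2)) / (2 * σ) := by
      field_simp
    rw [h2, le_div_iff₀ (by positivity)]
    have h3 := sq_nonneg (σ * |x| - |y|)
    have h4 := sq_nonneg (η * (σ - 1))
    have h5 := sq_abs x
    have h6 := sq_abs y
    nlinarith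
  rw [abs_div, abs_mul, abs_of_pos hη, abs_of_pos (mul_pos hA hB)]
  have h2 : (η / (x ^ 2 + η ^ 2) / σ + σ * (η / (y ^ 2 + η ^ 2))) / 2 =
      η * (((y ^ 2 + η ^ 2) / σ + σ * (x ^ 2 + η ^ 2)) / 2) / ((x ^ 2 + η ^ 2) * (y ^ 2 + η ^ 2)) := by
    field_simp
  rw [h2]
  apply div_le_div_of_nonneg_right _ (by positivity)
  exact mul_le_mul_of_nonneg_left key hη.le

theorem PP_far {η ρ σ : ℝ} (hη : 0 < η) (hρ : η ≤ ρ) (hσ : σ ^ 2 = η / ρ) (u e : ℝ)
    (hfar : ρ ≤ |u - e|) : PP η u e ≤ 2 * σ ^ 2 * PP ρ u e := by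
  have hρ0 : 0 < ρ := by linarith
  have h1 : ρ ^ 2 ≤ (u - e) ^ 2 := by
    rw [← sq_abs (u - e)]
    exact pow_le_pow_left₀ hρ0.le hfar 2
  unfold PP
  rw [hσ]
  have h2 : 2 * (η / ρ) * (ρ / ((u - e) ^ 2 + ρ ^ 2)) = 2 * η / ((u - e) ^ 2 + ρ ^ 2) := by
    field_simp
  rw [h2, div_le_div_iff₀ (by positivity) (by positivity)]
  nlinarith [sq_nonneg η]

theorem pk_far {η ρ σ : ℝ} (hη : 0 < η) (hρ : η ≤ ρ) (hσ0 : 0 < σ) (hσ : σ ^ 2 = η / ρ)
    (u v e : ℝ) (hfar : ρ ≤ |u - e|) :
    |pk η u v e| ≤ σ * PP ρ u e + σ / 2 * PP η v e := by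
  refine (pk_le hη hσ0 u v e).trans ?_
  have h1 := PP_far hη hρ hσ u e hfar
  have h2 : PP η u e / σ ≤ 2 * (σ * PP ρ u e) := by
    rw [div_le_iff₀ hσ0]
    linarith
  linarith

theorem dsum {ι : Type} [Fintype ι] (m : ι → ι → ℝ) (h1 : ∀ j, ∑ k, m j k = 1)
    (h2 : ∀ k, ∑ j, m j k = 1) (a b : ι → ℝ) :
    ∑ j, ∑ k, m j k * (a j + b k) = ∑ j, a j + ∑ k, b k := by
  simp only [mul_add, Finset.sum_add_distrib]
  congr 1
  · apply Finset.sum_congr rfl
    intro j _
    rw [← Finset.sum_mul, h1, one_mul]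
  · rw [Finset.sum_comm]
    apply Finset.sum_congr rfl
    intro k _
    rw [← Finset.sum_mul, h2, one_mul]

theorem ind_int (a b : ℝ) (hab : a ≤ b) :
    Integrable ((Set.Icc a b).indicator (fun _ => (1 : ℝ))) ∧
      ∫ x, (Set.Icc a b).indicator (fun _ => (1 : ℝ)) x = b - a := by
  constructor
  · rw [integrable_indicator_iff measurableSet_Icc]
    exact integrableOn_const (by simp)
  · rw [integral_indicator measurableSet_Icc]
    simp [hab]

theorem leak (hpk : ∀ η u v : ℝ, 0 < η → MeasureTheory.Integrable (pk η u v) ∧ ∫ e, pk η u v e = Real.pi * (4 * η ^ 2 / (4 * η ^ 2 + (u - v) ^ 2))) :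
  ∀ (ι : Type) [Fintype ι] (E : ι → ℝ) (m : ι → ι → ℝ),
  (∀ j k, 0 ≤ m j k) → (∀ j, ∑ k, m j k = 1) → (∀ k, ∑ j, m j k = 1) →
  ∀ η ρ α β B : ℝ, 0 < η → η ≤ ρ → 2 * ρ ≤ β - α →
    (∀ e, α - ρ ≤ e → e ≤ β + ρ → ∑ k, η / ((E k - e) ^ 2 + η ^ 2) ≤ B) →
    (∀ e, α ≤ e → e ≤ β → ∑ k, ρ / ((E k - e) ^ 2 + ρ ^ 2) ≤ B) →
    |(1 / Real.pi) * (∫ e in α..β, ∑ j, ∑ k, m j k * pk η (E j) (E k) e) -
      ∑ j, ∑ k, m j k * (if α ≤ E j ∧ E j ≤ β then 4 * η ^ 2 / (4 * η ^ 2 + (E j - E k) ^ 2) else 0)| ≤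
      4 * B * (ρ + (β - α) * Real.sqrt (η / ρ)) := by
  intro ι _ E m hm hrow hcol η ρ α β B hη hηρ hL hB1 hB2
  classical
  have hρ : 0 < ρ := by linarith
  have hαβ : α ≤ β := by linarith
  have hpi := Real.pi_pos
  obtain ⟨σ, hσd⟩ : ∃ σ, σ = Real.sqrt (η / ρ) := ⟨_, rfl⟩
  have hσ0 : 0 < σ := by rw [hσd]; exact Real.sqrt_pos.mpr (by positivity)
  have hσ : σ ^ 2 = η / ρ := by rw [hσd]; exact Real.sq_sqrt (by positivity)
  rw [← hσd]
  have hPP : ∀ (η : ℝ), 0 < η → ∀ u, Integrable (PP η u) ∧ ∫ e, PP η u e = Real.pi := by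
    intro η hη u
    have h := hpk η u u hη
    rw [pk_diag hη] at h
    refine ⟨h.1, ?_⟩
    rw [h.2, sub_self]
    field_simp
    ring
  have hB1' : ∀ e, α - ρ ≤ e → e ≤ β + ρ → ∑ k, PP η (E k) e ≤ B := hB1
  have hB2' : ∀ e, α ≤ e → e ≤ β → ∑ k, PP ρ (E k) e ≤ B := hB2
  have hB0 : 0 ≤ B :=
    (Finset.sum_nonneg fun k _ => PP_nonneg hη _ _).trans (hB1' α (by linarith) (by linarith))
  obtain ⟨s, hs⟩ : ∃ s : ι → ℝ, s = fun j => if α ≤ E j ∧ E j ≤ β then 1 else 0 := ⟨_, rfl⟩
  have hs01 : ∀ j, 0 ≤ s j ∧ s j ≤ 1 := by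
    intro j
    rw [hs]
    simp only
    split_ifs <;> norm_num
  obtain ⟨χ, hχ⟩ : ∃ χ : ℝ → ℝ, χ = (Set.Ioc α β).indicator (fun _ => (1 : ℝ)) := ⟨_, rfl⟩
  have hχ01 : ∀ e, 0 ≤ χ e ∧ χ e ≤ 1 := by
    intro e
    rw [hχ, Set.indicator_apply]
    split_ifs <;> norm_num
  -- the number of the indices
  have hN : ∑ j, s j ≤ 2 * (β - α) * B := by
    have h1 : ∀ j, s j ≤ ∫ e in Set.Icc (α - ρ) (β + ρ), PP η (E j) e := by
      intro j
      have h0 : 0 ≤ ∫ e in Set.Icc (α - ρ) (β + ρ), PP η (E j) e :=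
        integral_nonneg fun e => PP_nonneg hη _ _
      rw [hs]
      simp only
      split_ifs with hj
      · have h2 : ∫ _ in Set.Icc (E j - η) (E j + η), 1 / (2 * η) = (1 : ℝ) := by
          rw [setIntegral_const]
          have h3 : E j - η ≤ E j + η := by linarith
          rw [Real.volume_real_Icc_of_le h3, smul_eq_mul]
          field_simp
          ring
        rw [← h2]
        have h4 : ∫ _ in Set.Icc (E j - η) (E j + η), 1 / (2 * η) ≤
            ∫ e in Set.Icc (E j - η) (E j + η), PP η (E j) e := by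
          apply setIntegral_mono_on
          · exact integrableOn_const (by simp)
          · exact (hPP η hη (E j)).1.integrableOn
          · exact measurableSet_Icc
          · intro e he
            unfold PP
            rw [div_le_div_iff₀ (by positivity) (by positivity)]
            have h5 : (E j - e) ^ 2 ≤ η ^ 2 := by
              rw [sq_le_sq, abs_of_pos hη, abs_le]
              constructor <;> linarith [he.1, he.2]
            nlinarith
        refine h4.trans ?_
        apply setIntegral_mono_set (hPP η hη (E j)).1.integrableOn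
        · exact Filter.Eventually.of_forall fun e => PP_nonneg hη _ _
        · apply LE.le.eventuallyLE
          apply Set.Icc_subset_Icc <;> linarith [hj.1, hj.2]
      · exact h0
    refine (Finset.sum_le_sum fun j _ => h1 j).trans ?_
    rw [← integral_finsetSum _ (fun j _ => (hPP η hη (E j)).1.integrableOn)]
    have h6 : ∫ e in Set.Icc (α - ρ) (β + ρ), ∑ j, PP η (E j) e ≤
        ∫ _ in Set.Icc (α - ρ) (β + ρ), B := by
      apply setIntegral_mono_on
      · exact integrable_finsetSum _ (fun j _ => (hPP η hη (E j)).1.integrableOn)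
      · exact integrableOn_const (by simp)
      · exact measurableSet_Icc
      · intro e he
        exact hB1' e he.1 he.2
    refine h6.trans ?_
    rw [setIntegral_const, Real.volume_real_Icc_of_le (by linarith), smul_eq_mul]
    nlinarith
  -- integrability
  have hpi1 : ∀ j k, Integrable (fun e => m j k * pk η (E j) (E k) e) :=
    fun j k => (hpk η (E j) (E k) hη).1.const_mul _
  obtain ⟨S, hS⟩ : ∃ S : ℝ → ℝ, S = fun e => ∑ j, ∑ k, m j k * pk η (E j) (E k) e := ⟨_, rfl⟩
  have hSi : Integrable S := by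
    rw [hS]
    exact integrable_finsetSum _ (fun j _ => integrable_finsetSum _ (fun k _ => hpi1 j k))
  obtain ⟨U, hU⟩ : ∃ U : ℝ → ℝ, U = fun e => ∑ j, ∑ k, s j * (m j k * pk η (E j) (E k) e) := ⟨_, rfl⟩
  have hUi : Integrable U := by
    rw [hU]
    exact integrable_finsetSum _ (fun j _ => integrable_finsetSum _ (fun k _ => (hpi1 j k).const_mul _))
  have hχS : (fun e => χ e * S e) = (Set.Ioc α β).indicator S := by
    ext e
    rw [hχ, Set.indicator_apply, Set.indicator_apply]
    split_ifs <;> simp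
  have hχSi : Integrable (fun e => χ e * S e) := by
    rw [hχS]; exact hSi.indicator measurableSet_Ioc
  have e1 : ∫ e in α..β, ∑ j, ∑ k, m j k * pk η (E j) (E k) e = ∫ e, χ e * S e := by
    rw [hχS, integral_indicator measurableSet_Ioc, intervalIntegral.integral_of_le hαβ, hS]
  have e2 : ∑ j, ∑ k, m j k * (if α ≤ E j ∧ E j ≤ β then 4 * η ^ 2 / (4 * η ^ 2 + (E j - E k) ^ 2) else 0) =
      (1 / Real.pi) * ∫ e, U e := by
    rw [hU]
    rw [integral_finsetSum _ (fun j _ => integrable_finsetSum _ (fun k _ => (hpi1 j k).const_mul _)),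
      Finset.mul_sum]
    apply Finset.sum_congr rfl
    intro j _
    rw [integral_finsetSum _ (fun k _ => (hpi1 j k).const_mul _), Finset.mul_sum]
    apply Finset.sum_congr rfl
    intro k _
    rw [integral_const_mul, integral_const_mul, (hpk η (E j) (E k) hη).2, hs]
    simp only
    split_ifs
    · field_simp
    · ring
  rw [e1, e2, ← mul_sub, ← integral_sub hχSi hUi, abs_mul, abs_of_pos (by positivity : 0 < 1 / Real.pi)]
  -- the bound
  obtain ⟨f3, hf3⟩ : ∃ f3 : ℝ → ℝ, f3 = fun e => ∑ j, ∑ k, (s j * m j k) *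
      (σ * PP ρ (E j) e + σ / 2 * PP η (E k) e) := ⟨_, rfl⟩
  have hf3t : ∀ j k, Integrable (fun e => (s j * m j k) *
      (σ * PP ρ (E j) e + σ / 2 * PP η (E k) e)) := fun j k =>
    (((hPP ρ hρ (E j)).1.const_mul σ).add ((hPP η hη (E k)).1.const_mul (σ / 2))).const_mul _
  have hf3i : Integrable f3 := by
    rw [hf3]
    exact integrable_finsetSum _ (fun j _ => integrable_finsetSum _ (fun k _ => hf3t j k))
  have hf3v : ∫ e, f3 e = (3 / 2 * Real.pi * σ) * ∑ j, s j := by
    rw [hf3, integral_finsetSum _ (fun j _ => integrable_finsetSum _ (fun k _ => hf3t j k)),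
      Finset.mul_sum]
    apply Finset.sum_congr rfl
    intro j _
    rw [integral_finsetSum _ (fun k _ => hf3t j k)]
    have h1 : ∀ k, ∫ e, (s j * m j k) * (σ * PP ρ (E j) e + σ / 2 * PP η (E k) e) =
        m j k * (s j * (3 / 2 * Real.pi * σ)) := by
      intro k
      rw [integral_const_mul, integral_add ((hPP ρ hρ (E j)).1.const_mul σ)
        ((hPP η hη (E k)).1.const_mul (σ / 2)), integral_const_mul, integral_const_mul,
        (hPP ρ hρ (E j)).2, (hPP η hη (E k)).2]
      ring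
    rw [Finset.sum_congr rfl fun k _ => h1 k, ← Finset.sum_mul, hrow, one_mul, mul_comm]
  have hf30 : ∀ e, 0 ≤ f3 e := by
    intro e
    rw [hf3]
    apply Finset.sum_nonneg
    intro j _
    apply Finset.sum_nonneg
    intro k _
    apply mul_nonneg (mul_nonneg (hs01 j).1 (hm j k))
    exact add_nonneg (mul_nonneg hσ0.le (PP_nonneg hρ _ _))
      (mul_nonneg (by positivity) (PP_nonneg hη _ _))
  obtain ⟨i1, v1⟩ := ind_int (α - ρ) (α + ρ) (by linarith)
  obtain ⟨i2, v2⟩ := ind_int (β - ρ) (β + ρ) (by linarith)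
  obtain ⟨i3, v3⟩ := ind_int α β hαβ
  set J1 := (Set.Icc (α - ρ) (α + ρ)).indicator (fun _ => (1 : ℝ)) with hJ1
  set J2 := (Set.Icc (β - ρ) (β + ρ)).indicator (fun _ => (1 : ℝ)) with hJ2
  set J3 := (Set.Icc α β).indicator (fun _ => (1 : ℝ)) with hJ3
  have J10 : ∀ e, 0 ≤ J1 e := fun e => Set.indicator_nonneg (fun _ _ => zero_le_one) e
  have J20 : ∀ e, 0 ≤ J2 e := fun e => Set.indicator_nonneg (fun _ _ => zero_le_one) e
  have J30 : ∀ e, 0 ≤ J3 e := fun e => Set.indicator_nonneg (fun _ _ => zero_le_one) e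
  -- the pointwise bound
  have hDle : ∀ e, |χ e * S e - U e| ≤ ∑ j, ∑ k, m j k * (|χ e - s j| * |pk η (E j) (E k) e|) := by
    intro e
    have h1 : χ e * S e - U e = ∑ j, ∑ k, m j k * ((χ e - s j) * pk η (E j) (E k) e) := by
      rw [hS, hU]
      simp only
      rw [Finset.mul_sum, ← Finset.sum_sub_distrib]
      apply Finset.sum_congr rfl
      intro j _
      rw [Finset.mul_sum, ← Finset.sum_sub_distrib]
      apply Finset.sum_congr rfl
      intro k _
      ring
    rw [h1]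
    refine (Finset.abs_sum_le_sum_abs _ _).trans (Finset.sum_le_sum fun j _ => ?_)
    refine (Finset.abs_sum_le_sum_abs _ _).trans (Finset.sum_le_sum fun k _ => ?_)
    rw [abs_mul, abs_mul, abs_of_nonneg (hm j k)]
  have hnear : ∀ e, α - ρ ≤ e → e ≤ β + ρ → |χ e * S e - U e| ≤ B := by
    intro e he1 he2
    refine (hDle e).trans ?_
    have h1 : ∀ j k, m j k * (|χ e - s j| * |pk η (E j) (E k) e|) ≤
        m j k * (1 / 2 * PP η (E j) e + 1 / 2 * PP η (E k) e) := by
      intro j k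
      apply mul_le_mul_of_nonneg_left _ (hm j k)
      have h2 : |χ e - s j| ≤ 1 := by
        rw [abs_le]
        constructor <;> linarith [(hχ01 e).1, (hχ01 e).2, (hs01 j).1, (hs01 j).2]
      have h3 := pk_le hη one_pos (E j) (E k) e
      have h4 : |χ e - s j| * |pk η (E j) (E k) e| ≤ 1 * |pk η (E j) (E k) e| :=
        mul_le_mul_of_nonneg_right h2 (abs_nonneg _)
      rw [div_one, one_mul] at h3
      linarith
    refine (Finset.sum_le_sum fun j _ => Finset.sum_le_sum fun k _ => h1 j k).trans ?_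
    rw [dsum m hrow hcol (fun j => 1 / 2 * PP η (E j) e) (fun k => 1 / 2 * PP η (E k) e),
      ← Finset.mul_sum]
    have := hB1' e he1 he2
    linarith
  have hmain : ∀ e, |χ e * S e - U e| ≤ B * J1 e + B * J2 e + (3 / 2 * σ * B) * J3 e + f3 e := by
    intro e
    have n1 := mul_nonneg hB0 (J10 e)
    have n2 := mul_nonneg hB0 (J20 e)
    have n3 : 0 ≤ (3 / 2 * σ * B) * J3 e := mul_nonneg (by positivity) (J30 e)
    have n4 := hf30 e
    by_cases c1 : e ∈ Set.Icc (α - ρ) (α + ρ)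
    · have h1 : J1 e = 1 := Set.indicator_of_mem c1 _
      have h2 := hnear e c1.1 (by linarith [c1.2])
      rw [h1] at n1 ⊢
      linarith
    by_cases c2 : e ∈ Set.Icc (β - ρ) (β + ρ)
    · have h1 : J2 e = 1 := Set.indicator_of_mem c2 _
      have h2 := hnear e (by linarith [c2.1]) c2.2
      rw [h1] at n2 ⊢
      linarith
    by_cases c3 : e ∈ Set.Ioc α β
    · -- inside
      have a1 : α + ρ < e := by
        by_contra h
        exact c1 ⟨by linarith [c3.1], not_lt.mp h⟩
      have a2 : e < β - ρ := by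
        by_contra h
        exact c2 ⟨not_lt.mp h, by linarith [c3.2]⟩
      have hχ1 : χ e = 1 := by rw [hχ, Set.indicator_of_mem c3]
      have h3 : J3 e = 1 := Set.indicator_of_mem (show e ∈ Set.Icc α β from ⟨c3.1.le, c3.2⟩) _
      have h4 : ∀ j k, m j k * (|χ e - s j| * |pk η (E j) (E k) e|) ≤
          m j k * (σ * PP ρ (E j) e + σ / 2 * PP η (E k) e) := by
        intro j k
        apply mul_le_mul_of_nonneg_left _ (hm j k)
        have h0 : 0 ≤ σ * PP ρ (E j) e + σ / 2 * PP η (E k) e :=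
          add_nonneg (mul_nonneg hσ0.le (PP_nonneg hρ _ _))
            (mul_nonneg (by positivity) (PP_nonneg hη _ _))
        rw [hχ1, hs]
        simp only
        split_ifs with hj
        · rw [sub_self, abs_zero, zero_mul]; exact h0
        · rw [sub_zero, abs_one, one_mul]
          apply pk_far hη hηρ hσ0 hσ
          rw [le_abs]
          by_contra hcon
          push Not at hcon
          exact hj ⟨by linarith [hcon.2], by linarith [hcon.1]⟩
      have h5 : |χ e * S e - U e| ≤ 3 / 2 * σ * B := by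
        refine (hDle e).trans ?_
        refine (Finset.sum_le_sum fun j _ => Finset.sum_le_sum fun k _ => h4 j k).trans ?_
        rw [dsum m hrow hcol (fun j => σ * PP ρ (E j) e) (fun k => σ / 2 * PP η (E k) e),
          ← Finset.mul_sum, ← Finset.mul_sum]
        have g1 := hB1' e (by linarith [c3.1]) (by linarith [c3.2])
        have g2 := hB2' e c3.1.le c3.2
        nlinarith
      rw [h3]
      linarith
    · -- outside
      have hχ0 : χ e = 0 := by rw [hχ, Set.indicator_of_notMem c3]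
      have h4 : ∀ j k, m j k * (|χ e - s j| * |pk η (E j) (E k) e|) ≤
          (s j * m j k) * (σ * PP ρ (E j) e + σ / 2 * PP η (E k) e) := by
        intro j k
        rw [hχ0, hs]
        simp only
        split_ifs with hj
        · rw [zero_sub, abs_neg, abs_one, one_mul, one_mul]
          apply mul_le_mul_of_nonneg_left _ (hm j k)
          apply pk_far hη hηρ hσ0 hσ
          rw [le_abs]
          by_contra hcon
          push Not at hcon
          have b1 : α - ρ < e := by linarith [hcon.1, hj.1]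
          have b2 : e < β + ρ := by linarith [hcon.2, hj.2]
          rcases le_or_gt e α with h | h
          · exact c1 ⟨b1.le, by linarith⟩
          · rcases le_or_gt e β with h' | h'
            · exact c3 ⟨h, h'⟩
            · exact c2 ⟨by linarith, b2.le⟩
        · rw [sub_zero, abs_zero]; simp
      have h5 : |χ e * S e - U e| ≤ f3 e := by
        refine (hDle e).trans ?_
        rw [hf3]
        exact Finset.sum_le_sum fun j _ => Finset.sum_le_sum fun k _ => h4 j k
      linarith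
  have hfin : |∫ e, (χ e * S e - U e)| ≤ B * (2 * ρ) + B * (2 * ρ) + (3 / 2 * σ * B) * (β - α) +
      (3 / 2 * Real.pi * σ) * ∑ j, s j := by
    have hi12 : Integrable (fun e => B * J1 e + B * J2 e) := (i1.const_mul B).add (i2.const_mul B)
    have hi123 : Integrable (fun e => B * J1 e + B * J2 e + (3 / 2 * σ * B) * J3 e) :=
      hi12.add (i3.const_mul _)
    have g1 : ‖∫ e, (χ e * S e - U e)‖ ≤
        ∫ e, (B * J1 e + B * J2 e + (3 / 2 * σ * B) * J3 e + f3 e) := by
      apply norm_integral_le_of_norm_le (hi123.add hf3i)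
      exact Filter.Eventually.of_forall fun e => by
        rw [Real.norm_eq_abs]; exact hmain e
    rw [Real.norm_eq_abs] at g1
    refine g1.trans (le_of_eq ?_)
    rw [integral_add hi123 hf3i, integral_add hi12 (i3.const_mul _),
      integral_add (i1.const_mul B) (i2.const_mul B), integral_const_mul, integral_const_mul,
      integral_const_mul, v1, v2, v3, hf3v]
    ring
  rw [one_div, inv_mul_le_iff₀ hpi]
  refine hfin.trans ?_
  have g2 : (3 / 2 * Real.pi * σ) * ∑ j, s j ≤ (3 / 2 * Real.pi * σ) * (2 * (β - α) * B) :=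
    mul_le_mul_of_nonneg_left hN (by positivity)
  have hpi3 := Real.pi_gt_three
  have g3 : 0 ≤ B * ρ := by positivity
  have g4 : 0 ≤ σ * B * (β - α) := mul_nonneg (by positivity) (by linarith)
  nlinarith

end Pool.Agent.H189.ME.LEAK
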