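import Mathlib

set_option autoImplicit false

namespace Pool.Agent.H189.ME.PK

open MeasureTheory Filter Topology

noncomputable def pk (η u v e : ℝ) : ℝ :=
  η * ((u - e) * (v - e) + η ^ 2) / (((u - e) ^ 2 + η ^ 2) * ((v - e) ^ 2 + η ^ 2))

/-- the antiderivative -/
noncomputable def F (η u v e : ℝ) : ℝ :=
  η / ((v - u) ^ 2 + 4 * η ^ 2) *
    ((v - u) / 2 * Real.log (((v - e) ^ 2 + η ^ 2) / ((u - e) ^ 2 + η ^ 2)) +
      2 * η * (Real.arctan ((e - u) / η) + Real.arctan ((e - v) / η)))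

theorem hasDerivAt_F (η u v e : ℝ) (hη : 0 < η) : HasDerivAt (F η u v) (pk η u v e) e := by
  have hu : 0 < (u - e) ^ 2 + η ^ 2 := by positivity
  have hv : 0 < (v - e) ^ 2 + η ^ 2 := by positivity
  have hw : 0 < (v - u) ^ 2 + 4 * η ^ 2 := by positivity
  have h1 : HasDerivAt (fun e : ℝ => (v - e) ^ 2 + η ^ 2) (2 * (v - e) * (-1)) e := by
    have := (((hasDerivAt_const e v).sub (hasDerivAt_id e)).pow 2).add_const (η ^ 2)
    refine this.congr_deriv ?_
    simp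
  have h2 : HasDerivAt (fun e : ℝ => (u - e) ^ 2 + η ^ 2) (2 * (u - e) * (-1)) e := by
    have := (((hasDerivAt_const e u).sub (hasDerivAt_id e)).pow 2).add_const (η ^ 2)
    refine this.congr_deriv ?_
    simp
  have h3 : HasDerivAt (fun e : ℝ => Real.log (((v - e) ^ 2 + η ^ 2) / ((u - e) ^ 2 + η ^ 2)))
      (((2 * (v - e) * (-1)) * ((u - e) ^ 2 + η ^ 2) - ((v - e) ^ 2 + η ^ 2) * (2 * (u - e) * (-1))) /
        ((u - e) ^ 2 + η ^ 2) ^ 2 / (((v - e) ^ 2 + η ^ 2) / ((u - e) ^ 2 + η ^ 2))) e :=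
    (h1.div h2 hu.ne').log (div_pos hv hu).ne'
  have h4 : HasDerivAt (fun e : ℝ => Real.arctan ((e - u) / η))
      (1 / (1 + ((e - u) / η) ^ 2) * (1 / η)) e := by
    exact (((hasDerivAt_id e).sub_const u).div_const η).arctan
  have h5 : HasDerivAt (fun e : ℝ => Real.arctan ((e - v) / η))
      (1 / (1 + ((e - v) / η) ^ 2) * (1 / η)) e := by
    exact (((hasDerivAt_id e).sub_const v).div_const η).arctan
  have h6 := (((h3.const_mul ((v - u) / 2)).add ((h4.add h5).const_mul (2 * η))).const_mul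
    (η / ((v - u) ^ 2 + 4 * η ^ 2)))
  have h7 : HasDerivAt (F η u v) _ e := h6
  refine h7.congr_deriv ?_
  unfold pk
  have e1 : 1 + ((e - u) / η) ^ 2 = ((u - e) ^ 2 + η ^ 2) / η ^ 2 := by
    field_simp
    ring
  have e2 : 1 + ((e - v) / η) ^ 2 = ((v - e) ^ 2 + η ^ 2) / η ^ 2 := by
    field_simp
    ring
  rw [e1, e2]
  field_simp
  ring

theorem ratio_tendsto (η u v : ℝ) (hη : 0 < η) {l : Filter ℝ}
    (hl : Tendsto (fun e : ℝ => (u - e) ^ 2) l atTop) (hinv : Tendsto (fun e : ℝ => (u - e)⁻¹) l (𝓝 0)) :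
    Tendsto (fun e : ℝ => ((v - e) ^ 2 + η ^ 2) / ((u - e) ^ 2 + η ^ 2)) l (𝓝 1) := by
  have h1 : ∀ e : ℝ, e ≠ u → ((v - e) ^ 2 + η ^ 2) / ((u - e) ^ 2 + η ^ 2) =
      ((1 + (v - u) * (u - e)⁻¹) ^ 2 + η ^ 2 * ((u - e)⁻¹) ^ 2) / (1 + η ^ 2 * ((u - e)⁻¹) ^ 2) := by
    intro e he
    have h2 : u - e ≠ 0 := sub_ne_zero.2 he.symm
    have h3 : (u - e) ^ 2 + η ^ 2 ≠ 0 := by positivity
    have h4 : 1 + η ^ 2 * ((u - e)⁻¹) ^ 2 ≠ 0 := by positivity
    rw [div_eq_div_iff h3 h4]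
    field_simp
    ring
  have h2 : ∀ᶠ e in l, e ≠ u := by
    have := hl.eventually (eventually_gt_atTop 0)
    filter_upwards [this] with e he h
    rw [h] at he
    simp at he
  have h3 : Tendsto (fun e : ℝ => ((1 + (v - u) * (u - e)⁻¹) ^ 2 + η ^ 2 * ((u - e)⁻¹) ^ 2) /
      (1 + η ^ 2 * ((u - e)⁻¹) ^ 2)) l (𝓝 (((1 + (v - u) * 0) ^ 2 + η ^ 2 * 0 ^ 2) /
      (1 + η ^ 2 * 0 ^ 2))) := by
    refine Tendsto.div ?_ ?_ (by simp)
    · exact (((hinv.const_mul (v - u)).const_add 1).pow 2).add ((hinv.pow 2).const_mul (η ^ 2))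
    · exact ((hinv.pow 2).const_mul (η ^ 2)).const_add 1
  have h4 : ((1 + (v - u) * 0) ^ 2 + η ^ 2 * 0 ^ 2) / (1 + η ^ 2 * 0 ^ 2) = (1 : ℝ) := by simp
  rw [h4] at h3
  refine h3.congr' ?_
  filter_upwards [h2] with e he
  exact (h1 e he).symm

theorem log_tendsto (η u v : ℝ) (hη : 0 < η) {l : Filter ℝ}
    (hl : Tendsto (fun e : ℝ => (u - e) ^ 2) l atTop) (hinv : Tendsto (fun e : ℝ => (u - e)⁻¹) l (𝓝 0)) :
    Tendsto (fun e : ℝ => Real.log (((v - e) ^ 2 + η ^ 2) / ((u - e) ^ 2 + η ^ 2))) l (𝓝 0) := by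
  have h := (Real.continuousAt_log one_ne_zero).tendsto.comp (ratio_tendsto η u v hη hl hinv)
  rw [Real.log_one] at h
  exact h

theorem sub_tendsto_atBot (u : ℝ) : Tendsto (fun e : ℝ => u - e) atTop atBot :=
  tendsto_atBot_add_const_left _ u tendsto_neg_atTop_atBot

theorem sub_tendsto_atTop (u : ℝ) : Tendsto (fun e : ℝ => u - e) atBot atTop :=
  tendsto_atTop_add_const_left _ u tendsto_neg_atBot_atTop

theorem F_top (η u v : ℝ) (hη : 0 < η) : Tendsto (F η u v) atTop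
    (𝓝 (η / ((v - u) ^ 2 + 4 * η ^ 2) * ((v - u) / 2 * 0 + 2 * η * (Real.pi / 2 + Real.pi / 2)))) := by
  have hsq : Tendsto (fun e : ℝ => (u - e) ^ 2) atTop atTop := by
    have : Tendsto (fun e : ℝ => (e - u) ^ 2) atTop atTop :=
      (tendsto_pow_atTop two_ne_zero).comp (tendsto_atTop_add_const_right _ (-u) tendsto_id)
    refine this.congr fun e => ?_
    ring
  have harc : ∀ u : ℝ, Tendsto (fun e : ℝ => Real.arctan ((e - u) / η)) atTop (𝓝 (Real.pi / 2)) := by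
    intro u
    have h1 : Tendsto (fun e : ℝ => (e - u) / η) atTop atTop :=
      (tendsto_atTop_add_const_right _ (-u) tendsto_id).atTop_div_const hη
    exact (tendsto_nhds_of_tendsto_nhdsWithin Real.tendsto_arctan_atTop).comp h1
  refine Tendsto.const_mul _ (Tendsto.add (Tendsto.const_mul _ ?_) (Tendsto.const_mul _ ?_))
  · exact log_tendsto η u v hη hsq (tendsto_inv_atBot_zero.comp (sub_tendsto_atBot u))
  · exact (harc u).add (harc v)

theorem F_bot (η u v : ℝ) (hη : 0 < η) : Tendsto (F η u v) atBot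
    (𝓝 (η / ((v - u) ^ 2 + 4 * η ^ 2) * ((v - u) / 2 * 0 + 2 * η * (-(Real.pi / 2) + -(Real.pi / 2))))) := by
  have hsq : Tendsto (fun e : ℝ => (u - e) ^ 2) atBot atTop :=
    (tendsto_pow_atTop two_ne_zero).comp (sub_tendsto_atTop u)
  have harc : ∀ u : ℝ, Tendsto (fun e : ℝ => Real.arctan ((e - u) / η)) atBot (𝓝 (-(Real.pi / 2))) := by
    intro u
    have h1 : Tendsto (fun e : ℝ => (e - u) / η) atBot atBot :=
      (tendsto_atBot_add_const_right _ (-u) tendsto_id).atBot_div_const hη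
    exact (tendsto_nhds_of_tendsto_nhdsWithin Real.tendsto_arctan_atBot).comp h1
  refine Tendsto.const_mul _ (Tendsto.add (Tendsto.const_mul _ ?_) (Tendsto.const_mul _ ?_))
  · exact log_tendsto η u v hη hsq (tendsto_inv_atTop_zero.comp (sub_tendsto_atTop u))
  · exact (harc u).add (harc v)

/-- the Lorentzian is integrable -/
theorem lor_int (η u : ℝ) (hη : 0 < η) : Integrable (fun e : ℝ => η / ((u - e) ^ 2 + η ^ 2)) := by
  have h1 := (integrable_inv_one_add_sq.comp_sub_right u).comp_div (show (η : ℝ) ≠ 0 from hη.ne')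
  have h0 : Integrable (fun e : ℝ => (1 + (e / η - u / η) ^ 2)⁻¹) :=
    (integrable_inv_one_add_sq.comp_sub_right (u / η)).comp_div hη.ne'
  refine (h0.const_mul (1 / η)).congr (Eventually.of_forall fun e => ?_)
  have h2 : 1 + (e / η - u / η) ^ 2 = ((u - e) ^ 2 + η ^ 2) / η ^ 2 := by
    field_simp
    ring
  show 1 / η * (1 + (e / η - u / η) ^ 2)⁻¹ = η / ((u - e) ^ 2 + η ^ 2)
  rw [h2, inv_div]
  field_simp

theorem pk_bound (η u v e : ℝ) (hη : 0 < η) : |pk η u v e| ≤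
    1 / 2 * (η / ((u - e) ^ 2 + η ^ 2) + η / ((v - e) ^ 2 + η ^ 2)) := by
  have hu : 0 < (u - e) ^ 2 + η ^ 2 := by positivity
  have hv : 0 < (v - e) ^ 2 + η ^ 2 := by positivity
  unfold pk
  rw [abs_div, abs_mul, abs_of_pos hη, abs_of_pos (mul_pos hu hv), div_add_div _ _ hu.ne' hv.ne',
    ← mul_div_assoc]
  refine div_le_div_of_nonneg_right ?_ (mul_pos hu hv).le
  have h1 : |(u - e) * (v - e) + η ^ 2| ≤ ((u - e) ^ 2 + (v - e) ^ 2) / 2 + η ^ 2 := by
    rw [abs_le]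
    constructor <;> nlinarith [sq_nonneg (u - e - (v - e)), sq_nonneg (u - e + (v - e)), sq_nonneg η]
  nlinarith

theorem pk_int : ∀ η u v : ℝ, 0 < η → MeasureTheory.Integrable (pk η u v) ∧ ∫ e, pk η u v e = Real.pi * (4 * η ^ 2 / (4 * η ^ 2 + (u - v) ^ 2)) := by
  intro η u v hη
  have hcont : Continuous (pk η u v) := by
    unfold pk
    refine Continuous.div (by fun_prop) (by fun_prop) fun e => ?_
    positivity
  have hint : Integrable (pk η u v) := by
    refine (((lor_int η u hη).add (lor_int η v hη)).const_mul (1 / 2)).mono'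
      hcont.aestronglyMeasurable (Eventually.of_forall fun e => ?_)
    rw [Real.norm_eq_abs]
    exact pk_bound η u v e hη
  refine ⟨hint, ?_⟩
  rw [integral_of_hasDerivAt_of_tendsto (fun e => hasDerivAt_F η u v e hη) hint (F_bot η u v hη)
    (F_top η u v hη)]
  have hw : (v - u) ^ 2 + 4 * η ^ 2 ≠ 0 := by positivity
  have hw' : 4 * η ^ 2 + (u - v) ^ 2 ≠ 0 := by positivity
  field_simp
  ring

end Pool.Agent.H189.ME.PK
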