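import Mathlib

set_option autoImplicit false

namespace Pool.Agent.H189.ME.SAND

open MeasureTheory Set

/-- the clamp -/
noncomputable def cl (s θ z : ℝ) : ℝ := max 0 (min 1 ((z - s) / θ))

theorem cl_nonneg (s θ z : ℝ) : 0 ≤ cl s θ z := le_max_left _ _

theorem cl_le_one (s θ z : ℝ) : cl s θ z ≤ 1 := max_le zero_le_one (min_le_left _ _)

theorem cl_cont (s θ : ℝ) : Continuous (cl s θ) :=
  continuous_const.max (continuous_const.min ((continuous_id.sub continuous_const).div_const θ))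

theorem cl_zero {s θ z : ℝ} (hθ : 0 < θ) (hz : z ≤ s) : cl s θ z = 0 := by
  have h : (z - s) / θ ≤ 0 := div_nonpos_of_nonpos_of_nonneg (by linarith) hθ.le
  unfold cl
  rw [min_eq_right (h.trans zero_le_one), max_eq_left h]

theorem cl_one {s θ z : ℝ} (hθ : 0 < θ) (hz : s + θ ≤ z) : cl s θ z = 1 := by
  have h : 1 ≤ (z - s) / θ := by
    rw [le_div_iff₀ hθ]
    linarith
  unfold cl
  rw [min_eq_left h, max_eq_right zero_le_one]

theorem z_in {θ t : ℝ} (hθ0 : 0 < θ) (hθ : θ ≤ 1 / 8) (ht : |t| ≤ 1 - 6 * θ) :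
    1 / 2 + θ ≤ 1 / (1 + t ^ 2) := by
  have h1 : t ^ 2 ≤ (1 - 6 * θ) ^ 2 := by
    rw [← sq_abs]
    exact pow_le_pow_left₀ (abs_nonneg t) ht 2
  rw [le_div_iff₀ (by positivity)]
  have h2 : (1 / 2 + θ) * (1 + t ^ 2) ≤ (1 / 2 + θ) * (1 + (1 - 6 * θ) ^ 2) := by
    apply mul_le_mul_of_nonneg_left _ (by linarith)
    linarith
  have h3 : (1 / 2 + θ) * (1 + (1 - 6 * θ) ^ 2) ≤ 1 := by
    nlinarith [mul_nonneg hθ0.le hθ0.le, mul_nonneg (mul_nonneg hθ0.le hθ0.le) hθ0.le,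
      mul_nonneg hθ0.le (sub_nonneg.2 hθ), mul_nonneg (mul_nonneg hθ0.le hθ0.le) (sub_nonneg.2 hθ)]
  linarith

theorem z_out {θ t : ℝ} (hθ0 : 0 < θ) (hθ : θ ≤ 1 / 8) (ht : 1 + 6 * θ ≤ |t|) :
    1 / (1 + t ^ 2) ≤ 1 / 2 - θ := by
  have h1 : (1 + 6 * θ) ^ 2 ≤ t ^ 2 := by
    rw [← sq_abs t]
    exact pow_le_pow_left₀ (by linarith) ht 2
  rw [div_le_iff₀ (by positivity)]
  have h2 : (1 / 2 - θ) * (1 + (1 + 6 * θ) ^ 2) ≤ (1 / 2 - θ) * (1 + t ^ 2) := by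
    apply mul_le_mul_of_nonneg_left _ (by linarith)
    linarith
  have h3 : 1 ≤ (1 / 2 - θ) * (1 + (1 + 6 * θ) ^ 2) := by
    nlinarith [mul_nonneg hθ0.le hθ0.le, mul_nonneg (mul_nonneg hθ0.le hθ0.le) hθ0.le,
      mul_nonneg hθ0.le (sub_nonneg.2 hθ), mul_nonneg (mul_nonneg hθ0.le hθ0.le) (sub_nonneg.2 hθ)]
  linarith

theorem core
  (cau : ∀ g J : ℝ, 0 < g → 0 < J →
    MeasureTheory.Integrable (fun t : ℝ => g / Real.pi / (t ^ 2 + g ^ 2)) ∧
    (∫ t : ℝ, g / Real.pi / (t ^ 2 + g ^ 2)) = 1 ∧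
    (∫ t in (-1 : ℝ)..1, g / Real.pi / (t ^ 2 + g ^ 2)) = 1 - 2 / Real.pi * Real.arctan g ∧
    ∫ t : ℝ, g / Real.pi / (t ^ 2 + g ^ 2) * (J ^ 2 / (J ^ 2 + t ^ 2)) = J / (J + g))
  {ε θ : ℝ} (hθ0 : 0 < θ) (hθ : θ ≤ 1 / 8) (hθε : θ ≤ ε / 32) {f : ℝ → ℝ}
  (h0 : ∀ z, 0 ≤ f z) (h1 : ∀ z, f z ≤ 1) (hf1 : f 1 = 1)
  (hin : ∀ t : ℝ, |t| ≤ 1 - 6 * θ → f (1 / (1 + t ^ 2)) = 1)
  (hout : ∀ t : ℝ, 1 + 6 * θ ≤ |t| → f (1 / (1 + t ^ 2)) = 0)
  {n : ℕ} {a J : Fin n → ℝ} (hJ : ∀ i, 0 < J i)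
  (happ : ∀ t : ℝ, |f (1 / (1 + t ^ 2)) - ∑ i, a i * (J i ^ 2 / (J i ^ 2 + t ^ 2))| ≤ ε / 2)
  (g : ℝ) (hg : 0 ≤ g) :
    |(∑ i, a i * (J i / (J i + g))) - (1 - 2 / Real.pi * Real.arctan g)| ≤ ε := by
  have hπ := Real.pi_pos
  have hπ3 := Real.pi_gt_three
  rcases hg.eq_or_lt with hg0 | hg0
  · subst hg0
    have h2 := happ 0
    have e1 : (1 : ℝ) / (1 + 0 ^ 2) = 1 := by norm_num
    rw [e1, hf1] at h2
    have e2 : ∀ i, J i ^ 2 / (J i ^ 2 + 0 ^ 2) = J i / (J i + 0) := by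
      intro i
      have := (hJ i).ne'
      rw [add_zero, div_self this]
      field_simp
      ring
    simp_rw [e2] at h2
    rw [Real.arctan_zero, mul_zero, sub_zero, abs_sub_comm]
    linarith
  -- the Cauchy density
  obtain ⟨k, hk⟩ : ∃ k : ℝ → ℝ, k = fun t : ℝ => g / Real.pi / (t ^ 2 + g ^ 2) := ⟨_, rfl⟩
  have hkI : Integrable k := by rw [hk]; exact (cau g 1 hg0 one_pos).1
  have hk1 : ∫ t, k t = 1 := by rw [hk]; exact (cau g 1 hg0 one_pos).2.1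
  have hk2 : ∫ t in (-1 : ℝ)..1, k t = 1 - 2 / Real.pi * Real.arctan g := by
    rw [hk]; exact (cau g 1 hg0 one_pos).2.2.1
  have hk3 : ∀ i, ∫ t, k t * (J i ^ 2 / (J i ^ 2 + t ^ 2)) = J i / (J i + g) := by
    intro i
    rw [hk]; exact (cau g (J i) hg0 (hJ i)).2.2.2
  have hk0 : ∀ t, 0 ≤ k t := by intro t; rw [hk]; positivity
  have hkb' : ∀ t : ℝ, 1 / 4 ≤ |t| → k t ≤ 2 / Real.pi := by
    intro t ht
    rw [hk]
    have h2 : (1 / 4 : ℝ) ^ 2 ≤ t ^ 2 := by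
      rw [← sq_abs t]
      exact pow_le_pow_left₀ (by norm_num) ht 2
    show g / Real.pi / (t ^ 2 + g ^ 2) ≤ 2 / Real.pi
    rw [div_div, div_le_div_iff₀ (by positivity) hπ]
    have h3 : g ≤ 2 * (t ^ 2 + g ^ 2) := by nlinarith [sq_nonneg (g - 1 / 4)]
    nlinarith
  have hInt : ∀ i, Integrable (fun t => k t * (J i ^ 2 / (J i ^ 2 + t ^ 2))) := by
    intro i
    by_contra hcon
    have h2 := hk3 i
    rw [integral_undef hcon] at h2
    have := hJ i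
    have h3 : 0 < J i / (J i + g) := by positivity
    linarith
  have hPhi : ∑ i, a i * (J i / (J i + g)) =
      ∫ t, k t * ∑ i, a i * (J i ^ 2 / (J i ^ 2 + t ^ 2)) := by
    have e1 : (fun t => k t * ∑ i, a i * (J i ^ 2 / (J i ^ 2 + t ^ 2))) =
        fun t => ∑ i, a i * (k t * (J i ^ 2 / (J i ^ 2 + t ^ 2))) := by
      funext t
      rw [Finset.mul_sum]
      exact Finset.sum_congr rfl (fun i _ => by ring)
    rw [e1, integral_finsetSum _ (fun i _ => (hInt i).const_mul (a i))]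
    refine Finset.sum_congr rfl (fun i _ => ?_)
    rw [integral_const_mul, hk3]
  have hPhiI : Integrable (fun t => k t * ∑ i, a i * (J i ^ 2 / (J i ^ 2 + t ^ 2))) := by
    have e1 : (fun t => k t * ∑ i, a i * (J i ^ 2 / (J i ^ 2 + t ^ 2))) =
        fun t => ∑ i, a i * (k t * (J i ^ 2 / (J i ^ 2 + t ^ 2))) := by
      funext t
      rw [Finset.mul_sum]
      exact Finset.sum_congr rfl (fun i _ => by ring)
    rw [e1]
    exact integrable_finsetSum _ (fun i _ => (hInt i).const_mul (a i))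
  have hchi : 1 - 2 / Real.pi * Real.arctan g = ∫ t, (Icc (-1 : ℝ) 1).indicator k t := by
    rw [integral_indicator measurableSet_Icc, integral_Icc_eq_integral_Ioc,
      ← intervalIntegral.integral_of_le (by norm_num), hk2]
  have hchiI : Integrable ((Icc (-1 : ℝ) 1).indicator k) := hkI.indicator measurableSet_Icc
  -- the bound
  obtain ⟨A, hA⟩ : ∃ A : Set ℝ, A = Icc (1 - 6 * θ) (1 + 6 * θ) := ⟨_, rfl⟩
  obtain ⟨B, hB⟩ : ∃ B : Set ℝ, B = Icc (-1 - 6 * θ) (-1 + 6 * θ) := ⟨_, rfl⟩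
  have hAm : MeasurableSet A := by rw [hA]; exact measurableSet_Icc
  have hBm : MeasurableSet B := by rw [hB]; exact measurableSet_Icc
  have hAI : Integrable (A.indicator (fun _ : ℝ => (2 / Real.pi : ℝ))) := by
    rw [hA]
    exact (continuous_const.integrableOn_Icc).integrable_indicator measurableSet_Icc
  have hBI : Integrable (B.indicator (fun _ : ℝ => (2 / Real.pi : ℝ))) := by
    rw [hB]
    exact (continuous_const.integrableOn_Icc).integrable_indicator measurableSet_Icc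
  have hA1 : ∫ t, A.indicator (fun _ : ℝ => (2 / Real.pi : ℝ)) t = 12 * θ * (2 / Real.pi) := by
    rw [integral_indicator_const _ hAm, hA, Real.volume_real_Icc_of_le (by linarith), smul_eq_mul]
    ring
  have hB1 : ∫ t, B.indicator (fun _ : ℝ => (2 / Real.pi : ℝ)) t = 12 * θ * (2 / Real.pi) := by
    rw [integral_indicator_const _ hBm, hB, Real.volume_real_Icc_of_le (by linarith), smul_eq_mul]
    ring
  have hpt : ∀ t, ‖k t * (∑ i, a i * (J i ^ 2 / (J i ^ 2 + t ^ 2))) -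
      (Icc (-1 : ℝ) 1).indicator k t‖ ≤ k t * (ε / 2) +
        A.indicator (fun _ : ℝ => (2 / Real.pi : ℝ)) t +
        B.indicator (fun _ : ℝ => (2 / Real.pi : ℝ)) t := by
    intro t
    have hAn : 0 ≤ A.indicator (fun _ : ℝ => (2 / Real.pi : ℝ)) t :=
      indicator_nonneg (fun _ _ => by positivity) t
    have hBn : 0 ≤ B.indicator (fun _ : ℝ => (2 / Real.pi : ℝ)) t :=
      indicator_nonneg (fun _ _ => by positivity) t
    obtain ⟨S, hS⟩ : ∃ S, S = ∑ i, a i * (J i ^ 2 / (J i ^ 2 + t ^ 2)) := ⟨_, rfl⟩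
    have hap := happ t
    rw [← hS] at hap ⊢
    obtain ⟨F, hF⟩ : ∃ F, F = f (1 / (1 + t ^ 2)) := ⟨_, rfl⟩
    have hin' := hin t
    have hout' := hout t
    have hF0 := h0 (1 / (1 + t ^ 2))
    have hF1 := h1 (1 / (1 + t ^ 2))
    rw [← hF] at hap hin' hout' hF0 hF1
    obtain ⟨χ, hχ⟩ : ∃ χ : ℝ, χ = if |t| ≤ 1 then 1 else 0 := ⟨_, rfl⟩
    have hind : (Icc (-1 : ℝ) 1).indicator k t = k t * χ := by
      by_cases ht : |t| ≤ 1
      · rw [indicator_of_mem (mem_Icc.2 (abs_le.1 ht)), hχ, if_pos ht, mul_one]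
      · rw [indicator_of_notMem (fun h => ht (abs_le.2 (mem_Icc.1 h))), hχ, if_neg ht, mul_zero]
    rw [hind, ← mul_sub, Real.norm_eq_abs, abs_mul, abs_of_nonneg (hk0 t)]
    have hsplit : |S - χ| ≤ ε / 2 + |F - χ| := by
      calc |S - χ| = |(S - F) + (F - χ)| := by rw [sub_add_sub_cancel]
        _ ≤ |S - F| + |F - χ| := abs_add_le _ _
        _ ≤ ε / 2 + |F - χ| := by
            rw [abs_sub_comm] at hap
            linarith
    have hrest : k t * |F - χ| ≤ A.indicator (fun _ : ℝ => (2 / Real.pi : ℝ)) t +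
        B.indicator (fun _ : ℝ => (2 / Real.pi : ℝ)) t := by
      rcases le_total |t| (1 - 6 * θ) with h | h
      · rw [hin' h, hχ, if_pos (by linarith)]
        simp only [sub_self, abs_zero, mul_zero]
        linarith
      rcases le_total (1 + 6 * θ) |t| with h' | h'
      · rw [hout' h', hχ, if_neg (by linarith)]
        simp only [sub_self, abs_zero, mul_zero]
        linarith
      · have hd : |F - χ| ≤ 1 := by
          rw [hχ, abs_le]
          split_ifs <;> constructor <;> linarith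
        have hk' := hkb' t (by linarith)
        have hle : k t * |F - χ| ≤ 2 / Real.pi := by
          calc k t * |F - χ| ≤ k t * 1 := mul_le_mul_of_nonneg_left hd (hk0 t)
            _ ≤ 2 / Real.pi := by rw [mul_one]; exact hk'
        rcases le_total 0 t with h3 | h3
        · rw [abs_of_nonneg h3] at h h'
          have : t ∈ A := by rw [hA]; exact ⟨h, h'⟩
          rw [indicator_of_mem this]
          linarith
        · rw [abs_of_nonpos h3] at h h'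
          have : t ∈ B := by rw [hB]; exact ⟨by linarith, by linarith⟩
          rw [indicator_of_mem this]
          linarith
    calc k t * |S - χ| ≤ k t * (ε / 2 + |F - χ|) := mul_le_mul_of_nonneg_left hsplit (hk0 t)
      _ = k t * (ε / 2) + k t * |F - χ| := by ring
      _ ≤ _ := by linarith
  have hfin := norm_integral_le_of_norm_le (μ := volume)
    (((hkI.mul_const (ε / 2)).add hAI).add hBI) (Filter.Eventually.of_forall hpt)
  rw [integral_sub hPhiI hchiI, ← hPhi, ← hchi, Real.norm_eq_abs] at hfin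
  have hsum : ∫ t, (((fun t => k t * (ε / 2)) + A.indicator (fun _ : ℝ => (2 / Real.pi : ℝ))) +
      B.indicator (fun _ : ℝ => (2 / Real.pi : ℝ))) t = ε / 2 + 12 * θ * (2 / Real.pi) +
      12 * θ * (2 / Real.pi) := by
    rw [integral_add' ((hkI.mul_const (ε / 2)).add hAI) hBI,
      integral_add' (hkI.mul_const (ε / 2)) hAI, hA1, hB1, integral_mul_const, hk1, one_mul]
  have hsmall : 12 * θ * (2 / Real.pi) ≤ ε / 4 := by
    have h2 : 2 / Real.pi ≤ 2 / 3 := div_le_div_of_nonneg_left (by norm_num) (by norm_num) hπ3.le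
    have h4 : 12 * θ * (2 / Real.pi) ≤ 12 * θ * (2 / 3) :=
      mul_le_mul_of_nonneg_left h2 (by linarith)
    linarith
  refine hfin.trans ?_
  refine le_trans (le_of_eq hsum) ?_
  linarith

theorem sand
  (apx : ∀ f : ℝ → ℝ, ContinuousOn f (Set.Icc 0 1) → f 0 = 0 → ∀ ε : ℝ, 0 < ε →
    ∃ (n : ℕ) (a J : Fin n → ℝ), (∀ i, 0 < J i) ∧
      ∀ t : ℝ, |f (1 / (1 + t ^ 2)) - ∑ i, a i * (J i ^ 2 / (J i ^ 2 + t ^ 2))| ≤ ε)
  (cau : ∀ g J : ℝ, 0 < g → 0 < J →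
    MeasureTheory.Integrable (fun t : ℝ => g / Real.pi / (t ^ 2 + g ^ 2)) ∧
    (∫ t : ℝ, g / Real.pi / (t ^ 2 + g ^ 2)) = 1 ∧
    (∫ t in (-1 : ℝ)..1, g / Real.pi / (t ^ 2 + g ^ 2)) = 1 - 2 / Real.pi * Real.arctan g ∧
    ∫ t : ℝ, g / Real.pi / (t ^ 2 + g ^ 2) * (J ^ 2 / (J ^ 2 + t ^ 2)) = J / (J + g)) :
  ∀ ε : ℝ, 0 < ε →
  ∃ (n : ℕ) (a J : Fin n → ℝ) (n' : ℕ) (a' J' : Fin n' → ℝ), (∀ i, 0 < J i) ∧ (∀ i, 0 < J' i) ∧
    (∀ t : ℝ, (∑ i, a i * (J i ^ 2 / (J i ^ 2 + t ^ 2))) - ε ≤ if |t| ≤ 1 then 1 else 0) ∧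
    (∀ t : ℝ, (if |t| ≤ 1 then 1 else 0) ≤ (∑ i, a' i * (J' i ^ 2 / (J' i ^ 2 + t ^ 2))) + ε) ∧
    ∀ g : ℝ, 0 ≤ g →
      |(∑ i, a i * (J i / (J i + g))) - (1 - 2 / Real.pi * Real.arctan g)| ≤ ε ∧
      |(∑ i, a' i * (J' i / (J' i + g))) - (1 - 2 / Real.pi * Real.arctan g)| ≤ ε := by
  intro ε hε
  obtain ⟨θ, hθe⟩ : ∃ θ : ℝ, θ = min (1 / 8) (ε / 32) := ⟨_, rfl⟩
  have hθ0 : 0 < θ := by rw [hθe]; exact lt_min (by norm_num) (by positivity)
  have hθ8 : θ ≤ 1 / 8 := by rw [hθe]; exact min_le_left _ _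
  have hθε : θ ≤ ε / 32 := by rw [hθe]; exact min_le_right _ _
  obtain ⟨n, a, J, hJ, hap⟩ := apx (cl (1 / 2) θ) (cl_cont _ _).continuousOn
    (cl_zero hθ0 (by norm_num)) (ε / 2) (by positivity)
  obtain ⟨n', a', J', hJ', hap'⟩ := apx (cl (1 / 2 - θ) θ) (cl_cont _ _).continuousOn
    (cl_zero hθ0 (by linarith)) (ε / 2) (by positivity)
  have hzle : ∀ t : ℝ, 1 < |t| → 1 / (1 + t ^ 2) ≤ 1 / 2 := by
    intro t ht
    have h1 : (1 : ℝ) ^ 2 ≤ t ^ 2 := by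
      rw [← sq_abs t]
      exact pow_le_pow_left₀ (by norm_num) ht.le 2
    rw [div_le_div_iff₀ (by positivity) (by norm_num)]
    linarith
  have hzge : ∀ t : ℝ, |t| ≤ 1 → 1 / 2 ≤ 1 / (1 + t ^ 2) := by
    intro t ht
    have h1 : t ^ 2 ≤ (1 : ℝ) ^ 2 := by
      rw [← sq_abs t]
      exact pow_le_pow_left₀ (abs_nonneg t) ht 2
    rw [div_le_div_iff₀ (by norm_num) (by positivity)]
    linarith
  refine ⟨n, a, J, n', a', J', hJ, hJ', fun t => ?_, fun t => ?_, fun g hg => ⟨?_, ?_⟩⟩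
  · have h1 := (abs_le.1 (hap t)).1
    split_ifs with ht
    · have h2 := cl_le_one (1 / 2) θ (1 / (1 + t ^ 2))
      linarith
    · have h2 := cl_zero hθ0 (hzle t (not_le.1 ht))
      rw [h2] at h1
      linarith
  · have h1 := (abs_le.1 (hap' t)).2
    split_ifs with ht
    · have h2 : cl (1 / 2 - θ) θ (1 / (1 + t ^ 2)) = 1 := cl_one hθ0 (by linarith [hzge t ht])
      rw [h2] at h1
      linarith
    · have h2 := cl_nonneg (1 / 2 - θ) θ (1 / (1 + t ^ 2))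
      linarith
  · refine core cau hθ0 hθ8 hθε (cl_nonneg _ _) (cl_le_one _ _) (cl_one hθ0 (by linarith))
      (fun t ht => cl_one hθ0 (z_in hθ0 hθ8 ht))
      (fun t ht => cl_zero hθ0 ((z_out hθ0 hθ8 ht).trans (by linarith))) hJ hap g hg
  · refine core cau hθ0 hθ8 hθε (cl_nonneg _ _) (cl_le_one _ _) (cl_one hθ0 (by linarith))
      (fun t ht => cl_one hθ0 (by linarith [z_in hθ0 hθ8 ht]))
      (fun t ht => cl_zero hθ0 (z_out hθ0 hθ8 ht)) hJ' hap' g hg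

end Pool.Agent.H189.ME.SAND
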