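import Pool.Agent.H189.ME.Abs
import Pool.Agent.H189.ME.PK
import Pool.Agent.H189.ME.Leak
import Pool.Agent.H189.ME.Apx
import Pool.Agent.H189.ME.Cau
import Pool.Agent.H189.ME.Sand

/-! The real analysis, complete. -/

set_option autoImplicit false

namespace Pool.Agent.H189.ME

theorem s_leak : S_LEAK := LEAK.leak PK.pk_int

theorem s_sand : S_SAND := SAND.sand APX.apx CAU.cau

end Pool.Agent.H189.ME
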