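import Pool.Agent.H189.ME.Stm

/-! From the profile at one energy to the weights of the matrix elements. -/

set_option autoImplicit false
set_option linter.unusedSectionVars false
set_option linter.unusedVariables false

open scoped BigOperators
open MeasureTheory Set

namespace Pool.Agent.H189.ME

theorem pk_cont (η u v : ℝ) (hη : 0 < η) : Continuous (pk η u v) := by
  unfold pk
  have h : ∀ e : ℝ, ((u - e) ^ 2 + η ^ 2) * ((v - e) ^ 2 + η ^ 2) ≠ 0 := fun e => by positivity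
  exact Continuous.div (by fun_prop) (by fun_prop) h

section

variable {ι : Type} [Fintype ι] (E : ι → ℝ) (m : ι → ι → ℝ)

theorem one (hLEAK : S_LEAK) (hm : ∀ j k, 0 ≤ m j k) (h1 : ∀ j, ∑ k, m j k = 1)
    (h2 : ∀ k, ∑ j, m j k = 1) (J ϖ ρ α β B N δ : ℝ) (hJ : 0 < J) (hϖ : 0 < ϖ)
    (hηρ : J * ϖ / 2 ≤ ρ) (hρ : 2 * ρ ≤ β - α)
    (hB : ∀ e, α - ρ ≤ e → e ≤ β + ρ →
      ∑ k, (J * ϖ / 2) / ((E k - e) ^ 2 + (J * ϖ / 2) ^ 2) ≤ B)
    (hB' : ∀ e, α ≤ e → e ≤ β → ∑ k, ρ / ((E k - e) ^ 2 + ρ ^ 2) ≤ B)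
    (F : ℝ → ℝ) (hF : ContinuousOn F (Icc α β))
    (hprof : ∀ e, α ≤ e → e ≤ β →
      |∑ j, ∑ k, m j k * pk (J * ϖ / 2) (E j) (E k) e - N * F e| ≤ N * δ) :
    |∑ j, ∑ k, m j k * (if α ≤ E j ∧ E j ≤ β then
        J ^ 2 / (J ^ 2 + ((E j - E k) / ϖ) ^ 2) else 0) -
      N * ((1 / Real.pi) * ∫ e in α..β, F e)| ≤
      4 * B * (ρ + (β - α) * Real.sqrt (J * ϖ / 2 / ρ)) + (1 / Real.pi) * ((β - α) * (N * δ)) := by
  have hη : 0 < J * ϖ / 2 := by positivity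
  have hρ0 : 0 < ρ := hη.trans_le hηρ
  have hαβ : α ≤ β := by linarith
  have hπ := Real.pi_pos
  have key := hLEAK ι E m hm h1 h2 (J * ϖ / 2) ρ α β B hη hηρ hρ hB hB'
  have e1 : ∀ j k, (4 * (J * ϖ / 2) ^ 2 / (4 * (J * ϖ / 2) ^ 2 + (E j - E k) ^ 2)) =
      J ^ 2 / (J ^ 2 + ((E j - E k) / ϖ) ^ 2) := by
    intro j k
    have : 0 < J ^ 2 + ((E j - E k) / ϖ) ^ 2 := by positivity
    have : 0 < 4 * (J * ϖ / 2) ^ 2 + (E j - E k) ^ 2 := by positivity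
    rw [div_eq_div_iff (by positivity) (by positivity)]
    field_simp
    ring
  simp only [e1] at key
  have hc : Continuous fun e => ∑ j, ∑ k, m j k * pk (J * ϖ / 2) (E j) (E k) e :=
    continuous_finsetSum _ fun j _ => continuous_finsetSum _ fun k _ =>
      continuous_const.mul (pk_cont _ _ _ hη)
  have hFi : IntervalIntegrable F volume α β := by
    apply ContinuousOn.intervalIntegrable
    rwa [uIcc_of_le hαβ]
  have h3 : |(∫ e in α..β, ∑ j, ∑ k, m j k * pk (J * ϖ / 2) (E j) (E k) e) -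
      N * ∫ e in α..β, F e| ≤ (β - α) * (N * δ) := by
    rw [← intervalIntegral.integral_const_mul, ← intervalIntegral.integral_sub
      (hc.intervalIntegrable _ _) (hFi.const_mul _)]
    have h4 := intervalIntegral.norm_integral_le_of_norm_le_const (a := α) (b := β) (C := N * δ)
      (f := fun e => ∑ j, ∑ k, m j k * pk (J * ϖ / 2) (E j) (E k) e - N * F e) (fun e he => by
        rw [uIoc_of_le hαβ] at he
        exact hprof e he.1.le he.2)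
    rw [Real.norm_eq_abs, abs_of_nonneg (by linarith : 0 ≤ β - α)] at h4
    linarith
  have h5 : |(1 / Real.pi) * (∫ e in α..β, ∑ j, ∑ k, m j k * pk (J * ϖ / 2) (E j) (E k) e) -
      N * ((1 / Real.pi) * ∫ e in α..β, F e)| ≤ (1 / Real.pi) * ((β - α) * (N * δ)) := by
    have e2 : (1 / Real.pi) * (∫ e in α..β, ∑ j, ∑ k, m j k * pk (J * ϖ / 2) (E j) (E k) e) -
      N * ((1 / Real.pi) * ∫ e in α..β, F e) = (1 / Real.pi) *
        ((∫ e in α..β, ∑ j, ∑ k, m j k * pk (J * ϖ / 2) (E j) (E k) e) -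
          N * ∫ e in α..β, F e) := by ring
    rw [e2, abs_mul, abs_of_pos (by positivity : 0 < 1 / Real.pi)]
    exact mul_le_mul_of_nonneg_left h3 (by positivity)
  have h6 := abs_sub_comm ((1 / Real.pi) * (∫ e in α..β, ∑ j, ∑ k, m j k *
    pk (J * ϖ / 2) (E j) (E k) e)) (∑ j, ∑ k, m j k * (if α ≤ E j ∧ E j ≤ β then
        J ^ 2 / (J ^ 2 + ((E j - E k) / ϖ) ^ 2) else 0))
  rw [h6] at key
  exact (abs_sub_le _ _ _).trans (add_le_add key h5)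

/-- combinations -/
theorem comb (hLEAK : S_LEAK) (hm : ∀ j k, 0 ≤ m j k) (h1 : ∀ j, ∑ k, m j k = 1)
    (h2 : ∀ k, ∑ j, m j k = 1) (ϖ ρ α β B N δ ζ : ℝ) (n : ℕ) (a J : Fin n → ℝ)
    (hJ : ∀ i, 0 < J i) (hϖ : 0 < ϖ) (hN : 0 ≤ N) (hB0 : 0 ≤ B)
    (hζ : ∀ i, J i * ϖ / 2 / ρ ≤ ζ ^ 2) (hζ0 : 0 ≤ ζ) (hζ1 : ζ ≤ 1) (hρ0 : 0 < ρ)
    (hρ : 2 * ρ ≤ β - α)
    (hB : ∀ i, ∀ e, α - ρ ≤ e → e ≤ β + ρ →
      ∑ k, (J i * ϖ / 2) / ((E k - e) ^ 2 + (J i * ϖ / 2) ^ 2) ≤ B)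
    (hB' : ∀ e, α ≤ e → e ≤ β → ∑ k, ρ / ((E k - e) ^ 2 + ρ ^ 2) ≤ B)
    (Gf gf : ℝ → ℝ) (hG : ContinuousOn Gf (Icc α β)) (hg : ContinuousOn gf (Icc α β))
    (hg0 : ∀ e ∈ Icc α β, 0 ≤ gf e)
    (hprof : ∀ i, ∀ e, α ≤ e → e ≤ β →
      |∑ j, ∑ k, m j k * pk (J i * ϖ / 2) (E j) (E k) e - N * (Gf e * (J i / (J i + gf e)))| ≤
        N * δ) :
    |∑ j, ∑ k, m j k * (if α ≤ E j ∧ E j ≤ β then
        ∑ i, a i * (J i ^ 2 / (J i ^ 2 + ((E j - E k) / ϖ) ^ 2)) else 0) -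
      N * ((1 / Real.pi) * ∫ e in α..β, Gf e * ∑ i, a i * (J i / (J i + gf e)))| ≤
      (∑ i, |a i|) * (4 * B * (ρ + (β - α) * ζ) + (1 / Real.pi) * ((β - α) * (N * δ))) := by
  have hαβ : α ≤ β := by linarith
  have hc : ∀ i, ContinuousOn (fun e => Gf e * (J i / (J i + gf e))) (Icc α β) := fun i =>
    hG.mul (continuousOn_const.div (continuousOn_const.add hg) fun e he => by
      have := hg0 e he
      have := hJ i
      positivity)
  have h3 : ∀ i, |∑ j, ∑ k, m j k * (if α ≤ E j ∧ E j ≤ β then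
        (J i) ^ 2 / ((J i) ^ 2 + ((E j - E k) / ϖ) ^ 2) else 0) -
      N * ((1 / Real.pi) * ∫ e in α..β, Gf e * (J i / (J i + gf e)))| ≤
      4 * B * (ρ + (β - α) * ζ) + (1 / Real.pi) * ((β - α) * (N * δ)) := by
    intro i
    refine (one E m hLEAK hm h1 h2 (J i) ϖ ρ α β B N δ (hJ i) hϖ ?_ hρ (hB i) hB' _ (hc i)
      (hprof i)).trans ?_
    · have h4 := hζ i
      rw [div_le_iff₀ hρ0] at h4
      have : ζ ^ 2 ≤ 1 := pow_le_one₀ hζ0 hζ1
      nlinarith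
    · have h5 : Real.sqrt (J i * ϖ / 2 / ρ) ≤ ζ := Real.sqrt_le_iff.2 ⟨hζ0, hζ i⟩
      have : 0 ≤ β - α := by linarith
      gcongr
  have hint : ∫ e in α..β, Gf e * ∑ i, a i * (J i / (J i + gf e)) =
      ∑ i, a i * ∫ e in α..β, Gf e * (J i / (J i + gf e)) := by
    have e1 : ∀ e, Gf e * ∑ i, a i * (J i / (J i + gf e)) =
        ∑ i, a i * (Gf e * (J i / (J i + gf e))) := by
      intro e
      rw [Finset.mul_sum]
      exact Finset.sum_congr rfl fun i _ => by ring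
    simp only [e1]
    rw [intervalIntegral.integral_finsetSum]
    · exact Finset.sum_congr rfl fun i _ => intervalIntegral.integral_const_mul _ _
    · intro i _
      refine IntervalIntegrable.const_mul ?_ _
      apply ContinuousOn.intervalIntegrable
      rw [uIcc_of_le hαβ]
      exact hc i
  have hsum : ∑ j, ∑ k, m j k * (if α ≤ E j ∧ E j ≤ β then
        ∑ i, a i * (J i ^ 2 / (J i ^ 2 + ((E j - E k) / ϖ) ^ 2)) else 0) =
      ∑ i, a i * ∑ j, ∑ k, m j k * (if α ≤ E j ∧ E j ≤ β then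
        (J i) ^ 2 / ((J i) ^ 2 + ((E j - E k) / ϖ) ^ 2) else 0) := by
    have f1 : ∀ j k, m j k * (if α ≤ E j ∧ E j ≤ β then
        ∑ i, a i * (J i ^ 2 / (J i ^ 2 + ((E j - E k) / ϖ) ^ 2)) else 0) =
        ∑ i, a i * (m j k * (if α ≤ E j ∧ E j ≤ β then
          (J i) ^ 2 / ((J i) ^ 2 + ((E j - E k) / ϖ) ^ 2) else 0)) := by
      intro j k
      split_ifs
      · rw [Finset.mul_sum]
        exact Finset.sum_congr rfl fun i _ => by ring
      · simp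
    simp only [f1]
    calc ∑ j, ∑ k, ∑ i, a i * (m j k * (if α ≤ E j ∧ E j ≤ β then
          (J i) ^ 2 / ((J i) ^ 2 + ((E j - E k) / ϖ) ^ 2) else 0)) =
        ∑ j, ∑ i, ∑ k, a i * (m j k * (if α ≤ E j ∧ E j ≤ β then
          (J i) ^ 2 / ((J i) ^ 2 + ((E j - E k) / ϖ) ^ 2) else 0)) :=
          Finset.sum_congr rfl fun j _ => Finset.sum_comm
      _ = ∑ i, ∑ j, ∑ k, a i * (m j k * (if α ≤ E j ∧ E j ≤ β then
          (J i) ^ 2 / ((J i) ^ 2 + ((E j - E k) / ϖ) ^ 2) else 0)) := Finset.sum_comm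
      _ = _ := by simp only [Finset.mul_sum]
  rw [hsum, hint]
  have e2 : ∑ i, a i * ∑ j, ∑ k, m j k * (if α ≤ E j ∧ E j ≤ β then
        (J i) ^ 2 / ((J i) ^ 2 + ((E j - E k) / ϖ) ^ 2) else 0) -
      N * ((1 / Real.pi) * ∑ i, a i * ∫ e in α..β, Gf e * (J i / (J i + gf e))) =
      ∑ i, a i * (∑ j, ∑ k, m j k * (if α ≤ E j ∧ E j ≤ β then
        (J i) ^ 2 / ((J i) ^ 2 + ((E j - E k) / ϖ) ^ 2) else 0) -
      N * ((1 / Real.pi) * ∫ e in α..β, Gf e * (J i / (J i + gf e)))) := by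
    simp only [mul_sub, Finset.sum_sub_distrib]
    congr 1
    rw [Finset.mul_sum, Finset.mul_sum]
    exact Finset.sum_congr rfl fun i _ => by ring
  rw [e2, Finset.sum_mul]
  refine (Finset.abs_sum_le_sum_abs _ _).trans (Finset.sum_le_sum fun i _ => ?_)
  rw [abs_mul]
  exact mul_le_mul_of_nonneg_left (h3 i) (abs_nonneg _)

end

end Pool.Agent.H189.ME
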