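import Mathlib

/-! Matrix elements: the real analysis, statements. -/

set_option autoImplicit false

open scoped BigOperators
open MeasureTheory Set

namespace Pool.Agent.H189.ME

/-- the real part of `η / ((u - e - iη) (v - e + iη))` -/
noncomputable def pk (η u v e : ℝ) : ℝ :=
  η * ((u - e) * (v - e) + η ^ 2) / (((u - e) ^ 2 + η ^ 2) * ((v - e) ^ 2 + η ^ 2))

/-- its integral over the energies -/
def S_PK : Prop := ∀ η u v : ℝ, 0 < η →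
  Integrable (pk η u v) ∧ ∫ e, pk η u v e = Real.pi * (4 * η ^ 2 / (4 * η ^ 2 + (u - v) ^ 2))

/-- sharp windows in the energy parameter and in the eigenvalue -/
def S_LEAK : Prop := ∀ (ι : Type) [Fintype ι] (E : ι → ℝ) (m : ι → ι → ℝ),
  (∀ j k, 0 ≤ m j k) → (∀ j, ∑ k, m j k = 1) → (∀ k, ∑ j, m j k = 1) →
  ∀ η ρ α β B : ℝ, 0 < η → η ≤ ρ → 2 * ρ ≤ β - α →
    (∀ e, α - ρ ≤ e → e ≤ β + ρ → ∑ k, η / ((E k - e) ^ 2 + η ^ 2) ≤ B) →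
    (∀ e, α ≤ e → e ≤ β → ∑ k, ρ / ((E k - e) ^ 2 + ρ ^ 2) ≤ B) →
    |(1 / Real.pi) * (∫ e in α..β, ∑ j, ∑ k, m j k * pk η (E j) (E k) e) -
      ∑ j, ∑ k, m j k * (if α ≤ E j ∧ E j ≤ β then
        4 * η ^ 2 / (4 * η ^ 2 + (E j - E k) ^ 2) else 0)| ≤
      4 * B * (ρ + (β - α) * Real.sqrt (η / ρ))

/-- the number of eigenvalues in the window -/
def S_CNT : Prop := ∀ (ι : Type) [Fintype ι] (E : ι → ℝ) (η α β B : ℝ), 0 < η → 2 * η ≤ β - α →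
    (∀ e, α - η ≤ e → e ≤ β + η → ∑ k, η / ((E k - e) ^ 2 + η ^ 2) ≤ B) →
    ((Finset.univ.filter fun j => α ≤ E j ∧ E j ≤ β).card : ℝ) ≤ 2 * B * (β - α)

/-- Lorentz kernels are dense -/
def S_APX : Prop := ∀ f : ℝ → ℝ, ContinuousOn f (Icc 0 1) → f 0 = 0 → ∀ ε : ℝ, 0 < ε →
  ∃ (n : ℕ) (a J : Fin n → ℝ), (∀ i, 0 < J i) ∧
    ∀ t : ℝ, |f (1 / (1 + t ^ 2)) - ∑ i, a i * (J i ^ 2 / (J i ^ 2 + t ^ 2))| ≤ ε

/-- the Cauchy law with half width `g` against a Lorentz kernel -/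
def S_CAU : Prop := ∀ g J : ℝ, 0 < g → 0 < J →
  Integrable (fun t : ℝ => g / Real.pi / (t ^ 2 + g ^ 2)) ∧
  (∫ t : ℝ, g / Real.pi / (t ^ 2 + g ^ 2)) = 1 ∧
  (∫ t in (-1 : ℝ)..1, g / Real.pi / (t ^ 2 + g ^ 2)) = 1 - 2 / Real.pi * Real.arctan g ∧
  ∫ t : ℝ, g / Real.pi / (t ^ 2 + g ^ 2) * (J ^ 2 / (J ^ 2 + t ^ 2)) = J / (J + g)

/-- the indicator function of `[-1, 1]` between two combinations of Lorentz kernels with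
almost the same averages in all Cauchy laws -/
def S_SAND : Prop := ∀ ε : ℝ, 0 < ε →
  ∃ (n : ℕ) (a J : Fin n → ℝ) (n' : ℕ) (a' J' : Fin n' → ℝ), (∀ i, 0 < J i) ∧ (∀ i, 0 < J' i) ∧
    (∀ t : ℝ, (∑ i, a i * (J i ^ 2 / (J i ^ 2 + t ^ 2))) - ε ≤ if |t| ≤ 1 then 1 else 0) ∧
    (∀ t : ℝ, (if |t| ≤ 1 then 1 else 0) ≤ (∑ i, a' i * (J' i ^ 2 / (J' i ^ 2 + t ^ 2))) + ε) ∧
    ∀ g : ℝ, 0 ≤ g →
      |(∑ i, a i * (J i / (J i + g))) - (1 - 2 / Real.pi * Real.arctan g)| ≤ ε ∧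
      |(∑ i, a' i * (J' i / (J' i + g))) - (1 - 2 / Real.pi * Real.arctan g)| ≤ ε

end Pool.Agent.H189.ME
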