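import Pool.Agent.H189.Loc.Win
import Pool.Agent.H189.ME.Stm

/-! Matrix elements of plane waves and the resolvent on the torus. -/

set_option autoImplicit false
set_option linter.unusedSectionVars false
set_option linter.unusedVariables false

open scoped BigOperators ComplexConjugate
open Set

namespace Pool.Agent.H189.ME

open Pool.Agent.R988 Pool.Agent.R988.Tor Pool.Agent.R988.LA
open Pool.Agent.H4R2.LO (Zd)
open Pool.Agent.TH794.HK (ph Tg)

theorem nsq (z : ℂ) : ((‖z‖ ^ 2 : ℝ) : ℂ) = z * conj z := by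
  rw [Complex.mul_conj, Complex.normSq_eq_norm_sq]

section fin

variable {T ι : Type} [Fintype T] [Fintype ι] [DecidableEq T] [DecidableEq ι]

/-- the matrix element `⟨ψ_j, χ ψ_k⟩` -/
noncomputable def mel (ψ : ι → T → ℂ) (χ : T → ℂ) (j k : ι) : ℂ :=
  ∑ x, conj (ψ j x) * χ x * ψ k x

theorem trace (ψ : ι → T → ℂ) (w : ι → ℂ) (χ : T → ℂ) :
    ∑ a, conj (χ a) * ∑ x, χ x * ((‖K ψ w x a‖ ^ 2 : ℝ) : ℂ) =
      ∑ j, ∑ k, w j * conj (w k) * ((‖mel ψ χ k j‖ ^ 2 : ℝ) : ℂ) := by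
  have e1 : ∀ x a, ((‖K ψ w x a‖ ^ 2 : ℝ) : ℂ) =
      ∑ j, ∑ k, w j * conj (w k) * ((conj (ψ k x) * ψ j x) * (conj (ψ j a) * ψ k a)) := by
    intro x a
    rw [nsq]
    unfold K
    rw [map_sum, Finset.sum_mul_sum]
    refine Finset.sum_congr rfl fun j _ => Finset.sum_congr rfl fun k _ => ?_
    simp only [map_mul, Complex.conj_conj]
    ring
  have e2 : ∀ j k, w j * conj (w k) * ((‖mel ψ χ k j‖ ^ 2 : ℝ) : ℂ) =
      ∑ a, ∑ x, conj (χ a) * (χ x * (w j * conj (w k) *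
        ((conj (ψ k x) * ψ j x) * (conj (ψ j a) * ψ k a)))) := by
    intro j k
    rw [nsq]
    unfold mel
    rw [map_sum, Finset.sum_mul_sum, Finset.sum_comm, Finset.mul_sum]
    refine Finset.sum_congr rfl fun a _ => ?_
    rw [Finset.mul_sum]
    refine Finset.sum_congr rfl fun x _ => ?_
    simp only [map_mul, Complex.conj_conj]
    ring
  simp only [e1, e2, Finset.mul_sum]
  have e3 : ∀ f : ι → ι → T → T → ℂ, ∑ j, ∑ k, ∑ a, ∑ x, f j k a x =
      ∑ a, ∑ x, ∑ j, ∑ k, f j k a x := by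
    intro f
    calc ∑ j, ∑ k, ∑ a, ∑ x, f j k a x = ∑ j, ∑ a, ∑ k, ∑ x, f j k a x :=
          Finset.sum_congr rfl fun j _ => Finset.sum_comm
      _ = ∑ a, ∑ j, ∑ k, ∑ x, f j k a x := Finset.sum_comm
      _ = ∑ a, ∑ j, ∑ x, ∑ k, f j k a x :=
          Finset.sum_congr rfl fun a _ => Finset.sum_congr rfl fun j _ => Finset.sum_comm
      _ = _ := Finset.sum_congr rfl fun a _ => Finset.sum_comm
  rw [e3]

theorem mel_row (ψ : ι → T → ℂ)
    (ho : ∀ i j, ∑ x, conj (ψ i x) * ψ j x = if i = j then 1 else 0)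
    (hc : Fintype.card ι = Fintype.card T) (χ : T → ℂ) (hχ : ∀ x, ‖χ x‖ = 1) (j : ι) :
    ∑ k, ‖mel ψ χ j k‖ ^ 2 = 1 := by
  have h1 : ((∑ k, ‖mel ψ χ j k‖ ^ 2 : ℝ) : ℂ) = 1 := by
    rw [Complex.ofReal_sum]
    have e2 : ∀ k, ((‖mel ψ χ j k‖ ^ 2 : ℝ) : ℂ) =
        ∑ x, ∑ a, (conj (ψ j x) * χ x * (ψ j a * conj (χ a))) * (ψ k x * conj (ψ k a)) := by
      intro k
      rw [nsq]
      unfold mel
      rw [map_sum, Finset.sum_mul_sum]
      refine Finset.sum_congr rfl fun x _ => Finset.sum_congr rfl fun a _ => ?_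
      simp only [map_mul, Complex.conj_conj]
      ring
    simp only [e2]
    rw [Finset.sum_comm]
    have e3 : ∀ x, ∑ k, ∑ a, (conj (ψ j x) * χ x * (ψ j a * conj (χ a))) *
        (ψ k x * conj (ψ k a)) = conj (ψ j x) * ψ j x := by
      intro x
      rw [Finset.sum_comm]
      have e4 : ∀ a, ∑ k, (conj (ψ j x) * χ x * (ψ j a * conj (χ a))) *
          (ψ k x * conj (ψ k a)) = if x = a then conj (ψ j x) * ψ j x else 0 := by
        intro a
        rw [← Finset.mul_sum, complete ψ ho hc x a]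
        split_ifs with hxa
        · subst hxa
          have := nsq (χ x)
          rw [hχ x] at this
          have h5 : χ x * conj (χ x) = 1 := by rw [← this]; norm_num
          linear_combination (conj (ψ j x) * ψ j x) * h5
        · ring
      simp only [e4]
      rw [Finset.sum_ite_eq]
      simp
    simp only [e3]
    rw [ho j j, if_pos rfl]
  exact_mod_cast h1

theorem mel_conj (ψ : ι → T → ℂ) (χ : T → ℂ) (j k : ι) :
    ‖mel ψ χ j k‖ = ‖mel ψ (fun x => conj (χ x)) k j‖ := by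
  rw [← Complex.norm_conj]
  congr 1
  unfold mel
  rw [map_sum]
  refine Finset.sum_congr rfl fun x _ => ?_
  simp only [map_mul, Complex.conj_conj]
  ring

theorem mel_col (ψ : ι → T → ℂ)
    (ho : ∀ i j, ∑ x, conj (ψ i x) * ψ j x = if i = j then 1 else 0)
    (hc : Fintype.card ι = Fintype.card T) (χ : T → ℂ) (hχ : ∀ x, ‖χ x‖ = 1) (k : ι) :
    ∑ j, ‖mel ψ χ j k‖ ^ 2 = 1 := by
  simp only [mel_conj ψ χ _ k]
  exact mel_row ψ ho hc _ (fun x => by rw [Complex.norm_conj, hχ]) k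

theorem pk_re (η u v e : ℝ) (hη : 0 < η) :
    ((η : ℂ) * (1 / ((v : ℂ) - (e + η * Complex.I)) *
      conj (1 / ((u : ℂ) - (e + η * Complex.I))))).re = pk η u v e := by
  obtain ⟨a, ha⟩ : ∃ a, a = u - e := ⟨_, rfl⟩
  obtain ⟨b, hb⟩ : ∃ b, b = v - e := ⟨_, rfl⟩
  have e1 : ((v : ℂ) - (e + η * Complex.I)) = (b : ℂ) - η * Complex.I := by
    rw [hb]
    push_cast
    ring
  have e2 : conj (1 / ((u : ℂ) - (e + η * Complex.I))) = 1 / ((a : ℂ) + η * Complex.I) := by
    rw [map_div₀, map_one, map_sub, map_add, map_mul, Complex.conj_I, Complex.conj_ofReal,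
      Complex.conj_ofReal, Complex.conj_ofReal, ha]
    congr 1
    push_cast
    ring
  have hp : 0 < a ^ 2 + η ^ 2 := by positivity
  have hq : 0 < b ^ 2 + η ^ 2 := by positivity
  have hz1 : (b : ℂ) - η * Complex.I ≠ 0 := by
    intro h
    have := congrArg Complex.im h
    simp at this
    exact hη.ne' this
  have hz2 : (a : ℂ) + η * Complex.I ≠ 0 := by
    intro h
    have := congrArg Complex.im h
    simp at this
    exact hη.ne' this
  have e3 : (η : ℂ) * (1 / ((b : ℂ) - η * Complex.I) * (1 / ((a : ℂ) + η * Complex.I))) =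
      ((η / ((a ^ 2 + η ^ 2) * (b ^ 2 + η ^ 2)) : ℝ) : ℂ) *
        (((b : ℂ) + η * Complex.I) * ((a : ℂ) - η * Complex.I)) := by
    have hpc : ((a : ℂ) ^ 2 + (η : ℂ) ^ 2) ≠ 0 := by exact_mod_cast hp.ne'
    have hqc : ((b : ℂ) ^ 2 + (η : ℂ) ^ 2) ≠ 0 := by exact_mod_cast hq.ne'
    have f1 : ((b : ℂ) + η * Complex.I) * ((b : ℂ) - η * Complex.I) = (b : ℂ) ^ 2 + (η : ℂ) ^ 2 := by
      linear_combination (-(η : ℂ) ^ 2) * Complex.I_sq
    have f2 : ((a : ℂ) + η * Complex.I) * ((a : ℂ) - η * Complex.I) = (a : ℂ) ^ 2 + (η : ℂ) ^ 2 := by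
      linear_combination (-(η : ℂ) ^ 2) * Complex.I_sq
    push_cast
    rw [← f1, ← f2]
    rw [← f1] at hqc
    rw [← f2] at hpc
    have g1 := (mul_ne_zero_iff.1 hqc).1
    have g2 := (mul_ne_zero_iff.1 hpc).2
    field_simp
  rw [e1, e2, e3, Complex.re_ofReal_mul]
  unfold pk
  rw [← ha, ← hb]
  simp only [Complex.mul_re, Complex.add_re, Complex.sub_re, Complex.ofReal_re, Complex.I_re,
    Complex.add_im, Complex.sub_im, Complex.ofReal_im, Complex.I_im, Complex.mul_im]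
  field_simp
  ring

/-- the resolvent at one energy -/
theorem trace_re (ψ : ι → T → ℂ) (E : ι → ℝ) (e η : ℝ) (hη : 0 < η) (χ : T → ℂ) :
    ((η : ℂ) * ∑ a, conj (χ a) * ∑ x, χ x * ((‖G ψ E e η x a‖ ^ 2 : ℝ) : ℂ)).re =
      ∑ j, ∑ k, ‖mel ψ χ j k‖ ^ 2 * pk η (E j) (E k) e := by
  unfold G
  rw [trace, Finset.sum_comm]
  simp only [Finset.mul_sum, Complex.re_sum]
  refine Finset.sum_congr rfl fun j _ => Finset.sum_congr rfl fun k _ => ?_
  rw [← mul_assoc, mul_comm, Complex.re_ofReal_mul, pk_re η (E j) (E k) e hη]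

end fin

variable {d L : ℕ} [NeZero L]

/-- the plane wave `exp(2 π i n·x / L)` -/
noncomputable def wv (n : Fin d → ℤ) (x : TT d L) : ℂ :=
  ZMod.stdAddChar (∑ i, (n i : ZMod L) * x i)

theorem wv_norm (n : Fin d → ℤ) (x : TT d L) : ‖wv n x‖ = 1 := by
  unfold wv
  exact AddChar.norm_apply _ _

theorem wv_eq (n : Fin d → ℤ) (x : TT d L) :
    wv n x = Complex.exp (2 * Real.pi * Complex.I * (∑ i, (n i : ℂ) * ((x i).val : ℂ)) / L) := by
  unfold wv
  have e1 : ∑ i, (n i : ZMod L) * x i = ((∑ i, n i * ((x i).val : ℤ) : ℤ) : ZMod L) := by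
    push_cast
    refine Finset.sum_congr rfl fun i _ => ?_
    rw [ZMod.natCast_zmod_val]
  rw [e1, ZMod.stdAddChar_coe]
  congr 1
  push_cast
  ring

theorem wv_ph (n : Fin d → ℤ) (c : Zd d) (s x : TT d L) :
    wv n x * conj (wv n (s + pr L c)) = ph (fun i => 2 * Real.pi * n i / L) (em (x - s) - c) := by
  unfold wv
  rw [← AddChar.map_neg_eq_conj, ← AddChar.map_add_eq_mul]
  have e1 : ∑ i, (n i : ZMod L) * x i + -∑ i, (n i : ZMod L) * (s + pr L c) i =
      ((∑ i, n i * (em (x - s) i - c i) : ℤ) : ZMod L) := by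
    rw [← sub_eq_add_neg, ← Finset.sum_sub_distrib]
    push_cast
    refine Finset.sum_congr rfl fun i _ => ?_
    have h := congrFun (pr_em (x - s)) i
    unfold pr at h
    rw [h]
    simp only [Pi.add_apply, Pi.sub_apply, pr]
    ring
  rw [e1, ZMod.stdAddChar_coe]
  unfold ph
  congr 1
  push_cast
  simp only [Pi.sub_apply, Finset.mul_sum, Finset.sum_div]
  refine Finset.sum_congr rfl fun i _ => ?_
  push_cast
  ring

end Pool.Agent.H189.ME
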