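import Pool.Agent.H189.ME.All
import Pool.Agent.H189.ME.Tr
import Pool.Agent.H189.W.Heat

/-! The weights of the matrix elements of plane waves on the torus. -/

set_option autoImplicit false
set_option linter.unusedSectionVars false
set_option linter.unusedVariables false

open scoped BigOperators ComplexConjugate Topology
open Set MeasureTheory Filter

namespace Pool.Agent.H189.ME

open Pool.Agent.R988 Pool.Agent.R988.Tor Pool.Agent.R988.LA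
open Pool.Agent.H4R2.LO (Zd)
open Pool.Agent.TH794.HK (ph Tg)
open Pool.Agent.TH794.QE (Rs)
open Pool.Agent.TH794.QD (GF F0 F1)
open Pool.Agent.H189.W (gI Dc)

/-- one energy, one scale, one momentum -/
theorem det1 {d L : ℕ} [NeZero L] (hd : 0 < d) {ω : Zd d → ℝ} (lam b : ℝ) (hlam : 0 < lam)
    (hω : ∀ x, |ω x| ≤ b) (c : Zd d) (ρ : ℝ) (hρ : 1 ≤ ρ) (hc : ∀ i, ρ ≤ c i ∧ ρ + 1 ≤ L - c i)
    (e η : ℝ) (hη : 0 < η) (hη1 : η ≤ 1) (T : (Fin d → ℝ) → ℝ) (P : (Fin d → ℝ) → Prop) (δ1 : ℝ)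
    (hlaw : ∀ (s : TT d L) (u : Zd d → ℂ), Rs d (fun x => 2 * d + lam * ω (cycE s x)) c e η u →
      ∀ p : Fin d → ℝ, P p → ‖((η : ℝ) : ℂ) * ∑' x, ph p (x - c) * ((‖u x‖ ^ 2 : ℝ) : ℂ) -
        ((T p : ℝ) : ℂ)‖ ≤ δ1)
    {ι : Type} [Fintype ι] [DecidableEq ι] {ψ : ι → TT d L → ℂ} {E : ι → ℝ}
    (h : EB (fun x => 2 * d + lam * ω (em x)) ψ E)
    (n : Fin d → ℤ) (hp : P (fun i => 2 * Real.pi * n i / L)) :
    |∑ j, ∑ k, ‖mel ψ (wv n) j k‖ ^ 2 * pk η (E j) (E k) e -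
      (Fintype.card (TT d L) : ℝ) * T (fun i => 2 * Real.pi * n i / L)| ≤
      (Fintype.card (TT d L) : ℝ) * (δ1 + 20 * d * (η⁻¹) ^ 3 / ρ) := by
  have h1 : ∀ a : TT d L, ‖(η : ℂ) * ∑ x, (wv n x * conj (wv n a)) *
      ((‖G ψ E e η x a‖ ^ 2 : ℝ) : ℂ) - ((T (fun i => 2 * Real.pi * n i / L) : ℝ) : ℂ)‖ ≤
      δ1 + 20 * d * (η⁻¹) ^ 3 / ρ := by
    intro a
    refine torus_law hd lam b hlam hω c ρ hρ hc e η hη hη1 T P δ1 hlaw h a _ hp _ fun x => ?_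
    have h13 := wv_ph n c (a - pr L c) x
    rw [sub_add_cancel] at h13
    exact h13
  rw [← trace_re ψ E e η hη (wv n)]
  have e1 : (η : ℂ) * ∑ a, conj (wv n a) * ∑ x, wv n x * ((‖G ψ E e η x a‖ ^ 2 : ℝ) : ℂ) =
      ∑ a, (η : ℂ) * ∑ x, (wv n x * conj (wv n a)) * ((‖G ψ E e η x a‖ ^ 2 : ℝ) : ℂ) := by
    rw [Finset.mul_sum]
    refine Finset.sum_congr rfl fun a _ => ?_
    rw [Finset.mul_sum]
    congr 1
    refine Finset.sum_congr rfl fun x _ => ?_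
    ring
  have e2 : ((η : ℂ) * ∑ a, conj (wv n a) * ∑ x, wv n x * ((‖G ψ E e η x a‖ ^ 2 : ℝ) : ℂ)).re -
      (Fintype.card (TT d L) : ℝ) * T (fun i => 2 * Real.pi * n i / L) =
      ∑ a : TT d L, ((η : ℂ) * ∑ x, (wv n x * conj (wv n a)) *
      ((‖G ψ E e η x a‖ ^ 2 : ℝ) : ℂ) - ((T (fun i => 2 * Real.pi * n i / L) : ℝ) : ℂ)).re := by
    rw [e1, Complex.re_sum]
    simp only [Complex.sub_re, Complex.ofReal_re]
    rw [Finset.sum_sub_distrib, Finset.sum_const, Finset.card_univ, nsmul_eq_mul]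
  rw [e2]
  refine (Finset.abs_sum_le_sum_abs _ _).trans ((Finset.sum_le_sum fun a _ =>
    (Complex.abs_re_le_norm _).trans (h1 a)).trans (le_of_eq ?_))
  rw [Finset.sum_const, Finset.card_univ, nsmul_eq_mul]

theorem pk_self (η u e : ℝ) (hη : 0 < η) : pk η u u e = η / ((u - e) ^ 2 + η ^ 2) := by
  unfold pk
  have : 0 < (u - e) ^ 2 + η ^ 2 := by positivity
  rw [div_eq_div_iff (by positivity) (by positivity)]
  ring

/-- momentum zero -/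
theorem zero_sum {d L : ℕ} [NeZero L] {ι : Type} [Fintype ι] [DecidableEq ι] {W : TT d L → ℝ}
    {ψ : ι → TT d L → ℂ} {E : ι → ℝ} (h : EB W ψ E) (η e : ℝ) (hη : 0 < η) :
    ∑ j, ∑ k, ‖mel ψ (wv (0 : Fin d → ℤ)) j k‖ ^ 2 * pk η (E j) (E k) e =
      ∑ k, η / ((E k - e) ^ 2 + η ^ 2) := by
  have e1 : ∀ j k, ‖mel ψ (wv (0 : Fin d → ℤ)) j k‖ ^ 2 = if j = k then 1 else 0 := by
    intro j k
    have e2 : mel ψ (wv (0 : Fin d → ℤ)) j k = if j = k then 1 else 0 := by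
      rw [← h.ho j k]
      unfold mel wv
      refine Finset.sum_congr rfl fun x _ => ?_
      simp
    rw [e2]
    split_ifs <;> simp
  simp only [e1]
  refine Finset.sum_congr rfl fun j _ => ?_
  rw [Finset.sum_eq_single j]
  · rw [if_pos rfl, one_mul, pk_self _ _ _ hη]
  · intro k _ hk
    rw [if_neg (Ne.symm hk), zero_mul]
  · intro hj
    exact absurd (Finset.mem_univ j) hj


theorem Tg_form {d : ℕ} (J ϖ s2 E' : ℝ) (p : Fin d → ℝ) (hJ : 0 < J) (hϖ : 0 < ϖ) (hs : 0 < s2)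
    (hD : 0 ≤ Dc d E') :
    Tg (fun E => GF (F0 d) (E : ℂ)) (fun E => GF (F1 d) (E : ℂ)) (J * ϖ / 2) s2 E' p =
      gI d E' * (J / (J + 2 * Dc d E' * (∑ i, p i ^ 2) / (ϖ * s2))) := by
  unfold Tg
  have h1 : 0 ≤ ∑ i, p i ^ 2 := Finset.sum_nonneg fun i _ => sq_nonneg _
  have e0 : (GF (F0 d) (E' : ℂ)).im = gI d E' := rfl
  have e1 : (GF (F1 d) (E' : ℂ)).im / (GF (F0 d) (E' : ℂ)).im ^ 2 = Dc d E' := rfl
  have h2 : 0 ≤ 2 * Dc d E' * (∑ i, p i ^ 2) / (ϖ * s2) := by positivity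
  have h3 : 0 ≤ (∑ i, p i ^ 2) / (J * ϖ / 2 * s2) * Dc d E' := by positivity
  simp only [e1]
  simp only [e0]
  have e2 : J / (J + 2 * Dc d E' * (∑ i, p i ^ 2) / (ϖ * s2)) =
      1 / (1 + (∑ i, p i ^ 2) / (J * ϖ / 2 * s2) * Dc d E') := by
    have h4 : J + 2 * Dc d E' * (∑ i, p i ^ 2) / (ϖ * s2) =
        J * (1 + (∑ i, p i ^ 2) / (J * ϖ / 2 * s2) * Dc d E') := by
      field_simp
    rw [h4]
    have h5 : 0 < 1 + (∑ i, p i ^ 2) / (J * ϖ / 2 * s2) * Dc d E' := by linarith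
    field_simp
  rw [e2, mul_one_div]

theorem num_fin (A C0 N ρ l ζ δ ε ε1 t1 t2 t3 : ℝ) (hA : 0 ≤ A) (hC0 : 0 ≤ C0) (hN : 0 ≤ N)
    (hl : 0 ≤ l) (hε : 0 < ε) (hε1 : ε1 = ε / (8 * (C0 + 1))) (hρ : ρ ≤ t1 * l)
    (hδ : δ = t2 + t3) (a3 : 32 * A * (C0 + 1) / ε * t1 ≤ 1) (a4 : 32 * A * (C0 + 1) / ε * ζ ≤ 1)
    (a5 : 8 * A / ε * t2 ≤ 1) (a6 : 8 * A / ε * t3 ≤ 1) (ht2 : 0 ≤ t2) (ht3 : 0 ≤ t3) :
    A * (4 * ((C0 + 1) * N) * (ρ + l * ζ) + (1 / Real.pi) * (l * (N * δ))) +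
      N * ((1 / Real.pi) * (l * (C0 * ε1))) + ε1 * (2 * ((C0 + 1) * N) * l) ≤ ε * (l * N) := by
  have hπ := Real.pi_gt_three
  have hπ1 : 1 / Real.pi ≤ 1 := by
    rw [div_le_one (by linarith)]
    linarith
  have hπ0 : 0 ≤ 1 / Real.pi := by positivity
  have b3 : 4 * A * (C0 + 1) * t1 ≤ ε / 8 := by
    have e1 : 32 * A * (C0 + 1) / ε * t1 = (4 * A * (C0 + 1) * t1) / (ε / 8) := by
      field_simp
      ring
    rw [e1, div_le_one (by positivity)] at a3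
    exact a3
  have b4 : 4 * A * (C0 + 1) * ζ ≤ ε / 8 := by
    have e1 : 32 * A * (C0 + 1) / ε * ζ = (4 * A * (C0 + 1) * ζ) / (ε / 8) := by
      field_simp
      ring
    rw [e1, div_le_one (by positivity)] at a4
    exact a4
  have b5 : A * t2 ≤ ε / 8 := by
    have e1 : 8 * A / ε * t2 = (A * t2) / (ε / 8) := by
      field_simp
    rw [e1, div_le_one (by positivity)] at a5
    exact a5
  have b6 : A * t3 ≤ ε / 8 := by
    have e1 : 8 * A / ε * t3 = (A * t3) / (ε / 8) := by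
      field_simp
    rw [e1, div_le_one (by positivity)] at a6
    exact a6
  have b7 : (C0 + 1) * ε1 = ε / 8 := by
    rw [hε1]
    field_simp
  have hε10 : 0 ≤ ε1 := by rw [hε1]; positivity
  have b8 : C0 * ε1 ≤ ε / 8 := by linarith
  obtain ⟨W, hW⟩ : ∃ W, W = l * N := ⟨_, rfl⟩
  have hW0 : 0 ≤ W := by rw [hW]; positivity
  have c1 : A * (4 * ((C0 + 1) * N) * ρ) ≤ ε / 8 * W := by
    calc A * (4 * ((C0 + 1) * N) * ρ) ≤ A * (4 * ((C0 + 1) * N) * (t1 * l)) := by gcongr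
      _ = (4 * A * (C0 + 1) * t1) * W := by rw [hW]; ring
      _ ≤ ε / 8 * W := by gcongr
  have c2 : A * (4 * ((C0 + 1) * N) * (l * ζ)) ≤ ε / 8 * W := by
    calc A * (4 * ((C0 + 1) * N) * (l * ζ)) = (4 * A * (C0 + 1) * ζ) * W := by rw [hW]; ring
      _ ≤ ε / 8 * W := by gcongr
  have c3 : A * ((1 / Real.pi) * (l * (N * δ))) ≤ ε / 4 * W := by
    have hδ0 : 0 ≤ δ := by rw [hδ]; positivity
    calc A * ((1 / Real.pi) * (l * (N * δ))) ≤ A * (1 * (l * (N * δ))) := by gcongr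
      _ = (A * t2 + A * t3) * W := by rw [hW, hδ]; ring
      _ ≤ ε / 4 * W := by
          refine mul_le_mul_of_nonneg_right ?_ hW0
          linarith
  have c4 : N * ((1 / Real.pi) * (l * (C0 * ε1))) ≤ ε / 8 * W := by
    calc N * ((1 / Real.pi) * (l * (C0 * ε1))) ≤ N * (1 * (l * (C0 * ε1))) := by gcongr
      _ = (C0 * ε1) * W := by rw [hW]; ring
      _ ≤ ε / 8 * W := by gcongr
  have c5 : ε1 * (2 * ((C0 + 1) * N) * l) = ε / 4 * W := by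
    calc ε1 * (2 * ((C0 + 1) * N) * l) = 2 * ((C0 + 1) * ε1) * W := by rw [hW]; ring
      _ = ε / 4 * W := by rw [b7]; ring
  have hεW : 0 ≤ ε * W := by positivity
  have e1 : A * (4 * ((C0 + 1) * N) * (ρ + l * ζ) + (1 / Real.pi) * (l * (N * δ))) +
      N * ((1 / Real.pi) * (l * (C0 * ε1))) + ε1 * (2 * ((C0 + 1) * N) * l) =
      A * (4 * ((C0 + 1) * N) * ρ) + A * (4 * ((C0 + 1) * N) * (l * ζ)) +
      A * ((1 / Real.pi) * (l * (N * δ))) + N * ((1 / Real.pi) * (l * (C0 * ε1))) +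
      ε1 * (2 * ((C0 + 1) * N) * l) := by ring
  rw [e1, c5, ← hW]
  nlinarith

theorem main (d : ℕ) (hd : 3 ≤ d) (κ : ℝ) (hκ : 0 < κ) :
    ∀ b v K ε : ℝ, 0 < b → 0 < v → 0 ≤ K → 0 < ε → ∃ lam0 : ℝ, 0 < lam0 ∧
      ∀ (μ : Measure ℝ), IsProbabilityMeasure μ → (∀ᵐ s ∂μ, |s| ≤ b) →
      ∀ M V : ℝ, ∫ s, s ∂μ = M → ∫ s, (s - M) ^ 2 ∂μ = V → v ≤ V →
      ∀ lam : ℝ, 0 < lam → lam ≤ lam0 →
      ∃ G : Set (Zd d → ℝ), MeasurableSet G ∧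
        1 - Real.exp (-lam ^ (-(1 / 103) : ℝ)) ≤
          (Measure.infinitePi fun _ : Zd d => μ).real G ∧
        ∀ ω ∈ G, ∀ (L : ℕ) [NeZero L], lam ^ (-7 : ℝ) ≤ L →
          (L : ℝ) ≤ Real.exp (lam ^ (-(1 / 103) : ℝ)) →
        ∀ (ι : Type) [Fintype ι] [DecidableEq ι] (ψ : ι → TT d L → ℂ) (E : ι → ℝ),
          EB (fun x => 2 * d + lam * ω (em x)) ψ E →
        ∀ ϖ : ℝ, lam ^ (2 + 1 / 41 : ℝ) ≤ ϖ → ϖ ≤ lam ^ (2 + 1 / 79 : ℝ) →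
        ∀ n : Fin d → ℤ, ∑ i, (2 * Real.pi * n i / L) ^ 2 ≤ K * (ϖ * (lam ^ 2 * V)) →
        ∀ α β : ℝ, κ + lam * M ≤ α → β ≤ 4 * d - κ + lam * M →
          α + lam ^ (2 + 1 / 81 : ℝ) ≤ β →
          |∑ j, ∑ k, (if (α ≤ E j ∧ E j ≤ β) ∧ |E j - E k| ≤ ϖ then
              ‖mel ψ (wv n) j k‖ ^ 2 else 0) -
            (Fintype.card (TT d L) : ℝ) * ((1 / Real.pi) * ∫ e in α..β,
              gI d (2 * d + lam * M - e) * (1 - 2 / Real.pi * Real.arctan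
                (2 * Dc d (2 * d + lam * M - e) * (∑ i, (2 * Real.pi * n i / L) ^ 2) /
                  (ϖ * (lam ^ 2 * V)))))| ≤
            ε * ((β - α) * (Fintype.card (TT d L) : ℝ)) := by
  intro b v K ε hb hv hK hε
  have hdR : (3 : ℝ) ≤ d := by exact_mod_cast hd
  have hπ := Real.pi_pos
  have hπ3 := Real.pi_gt_three
  obtain ⟨κ1, hκ1⟩ : ∃ κ1, κ1 = min κ 1 / 2 := ⟨_, rfl⟩
  have hκ10 : 0 < κ1 := by rw [hκ1]; have := lt_min hκ one_pos; linarith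
  have hκ11 : κ1 ≤ 1 := by rw [hκ1]; have := min_le_right κ 1; linarith
  have hκ2 : 2 * κ1 ≤ κ := by rw [hκ1]; have := min_le_left κ 1; linarith
  obtain ⟨⟨m, hm, hl⟩, h3⟩ := Pool.Agent.TH794.HK.finN Pool.Agent.W193.BK.ES.es
    (Pool.Agent.W261.BK.third Pool.Agent.W540.BK.fac)
    (Pool.Agent.W240.BK.fluct (Pool.Agent.W240.BK.var Pool.Agent.W193.BK.ES.es))
    Pool.Agent.W475.BK.inv Pool.Agent.W975.BK.sup
    (Pool.Agent.W465.BK.qb (Pool.Agent.W240.BK.two Pool.Agent.W918.BK.Osc.osc))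
    Pool.Agent.W475.BK.low Pool.Agent.W790.BK.ADM.adm Pool.Agent.W540.BK.fac
    Pool.Agent.W918.BK.Osc.osc d hd κ1 hκ10 hκ11
  obtain ⟨C0, hC0, hgC⟩ := Pool.Agent.H189.W.gI_bd d hd
  obtain ⟨ε1, hε1⟩ : ∃ ε1, ε1 = ε / (8 * (C0 + 1)) := ⟨_, rfl⟩
  have hε10 : 0 < ε1 := by rw [hε1]; positivity
  obtain ⟨n1, a, J, n2, a', J', hJ, hJ', hlo, hup, hlim⟩ := s_sand ε1 hε10
  obtain ⟨A, hA⟩ : ∃ A, A = (∑ i, |a i|) + ∑ i, |a' i| := ⟨_, rfl⟩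
  have hA0 : 0 ≤ A := by rw [hA]; positivity
  obtain ⟨Jm, hJm⟩ : ∃ Jm, Jm = 1 + (∑ i, J i) + ∑ i, J' i := ⟨_, rfl⟩
  have hsJ : 0 ≤ ∑ i, J i := Finset.sum_nonneg fun i _ => (hJ i).le
  have hsJ' : 0 ≤ ∑ i, J' i := Finset.sum_nonneg fun i _ => (hJ' i).le
  have hJm1 : 1 ≤ Jm := by rw [hJm]; linarith
  have hJle : ∀ i, J i ≤ Jm := fun i => by
    have := Finset.single_le_sum (f := J) (fun i _ => (hJ i).le) (Finset.mem_univ i)
    rw [hJm]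
    linarith
  have hJle' : ∀ i, J' i ≤ Jm := fun i => by
    have := Finset.single_le_sum (f := J') (fun i _ => (hJ' i).le) (Finset.mem_univ i)
    rw [hJm]
    linarith
  obtain ⟨Q, hQ⟩ : ∃ Q, Q = 1 + (∑ i, (J i)⁻¹) + ∑ i, (J' i)⁻¹ := ⟨_, rfl⟩
  have hsQ : 0 ≤ ∑ i, (J i)⁻¹ := Finset.sum_nonneg fun i _ => (inv_pos.2 (hJ i)).le
  have hsQ' : 0 ≤ ∑ i, (J' i)⁻¹ := Finset.sum_nonneg fun i _ => (inv_pos.2 (hJ' i)).le
  have hQ1 : 1 ≤ Q := by rw [hQ]; linarith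
  have hQ0 : 0 < Q := by linarith
  have hQle : ∀ i, 1 ≤ Q * J i := fun i => by
    have := Finset.single_le_sum (f := fun i => (J i)⁻¹) (fun i _ => (inv_pos.2 (hJ i)).le)
      (Finset.mem_univ i)
    have h4 : (J i)⁻¹ ≤ Q := by rw [hQ]; linarith
    have h5 := mul_le_mul_of_nonneg_right h4 (hJ i).le
    rwa [inv_mul_cancel₀ (hJ i).ne'] at h5
  have hQle' : ∀ i, 1 ≤ Q * J' i := fun i => by
    have := Finset.single_le_sum (f := fun i => (J' i)⁻¹) (fun i _ => (inv_pos.2 (hJ' i)).le)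
      (Finset.mem_univ i)
    have h4 : (J' i)⁻¹ ≤ Q := by rw [hQ]; linarith
    have h5 := mul_le_mul_of_nonneg_right h4 (hJ' i).le
    rwa [inv_mul_cancel₀ (hJ' i).ne'] at h5
  obtain ⟨c0, hc0, h4⟩ := h3 b v (2 * K * Q) hb hv (by positivity)
  obtain ⟨t0, ht0, ht01, hev⟩ := ev_extract (P := fun t : ℝ =>
    (2 * t ^ (1 / 200 : ℝ) ≤ 1 ∧ 2 * (60 * d) * t ^ (37 / 40 : ℝ) ≤ 1) ∧
    (32 * A * (C0 + 1) / ε * t ^ (1 / 6480 : ℝ) ≤ 1 ∧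
      32 * A * (C0 + 1) / ε * t ^ (1 / 20000 : ℝ) ≤ 1) ∧
    (8 * A / ε * t ^ (1 / 200 : ℝ) ≤ 1 ∧ 8 * A / ε * (60 * d) * t ^ (37 / 40 : ℝ) ≤ 1) ∧
    (2 * Q * t ^ (1 / 1640 : ℝ) ≤ 1 ∧ Jm / 2 * t ^ (1 / 6320 : ℝ) ≤ 1) ∧
    (Jm / 2 * t ^ (23 / 395000 : ℝ) ≤ 1 ∧ 1 / κ1 * t ^ (161 / 80 : ℝ) ≤ 1) ∧
    (2 * t ^ (1 / 6480 : ℝ) ≤ 1 ∧ (2 * d + 3) * t ^ (2 / 10403 : ℝ) ≤ 1) ∧
    6 * t ^ (7 : ℝ) ≤ 1) (by
    filter_upwards [ev1 2 (1 / 200) (by norm_num), ev1 (2 * (60 * d)) (37 / 40) (by norm_num),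
      ev1 (32 * A * (C0 + 1) / ε) (1 / 6480) (by norm_num),
      ev1 (32 * A * (C0 + 1) / ε) (1 / 20000) (by norm_num),
      ev1 (8 * A / ε) (1 / 200) (by norm_num), ev1 (8 * A / ε * (60 * d)) (37 / 40) (by norm_num),
      ev1 (2 * Q) (1 / 1640) (by norm_num), ev1 (Jm / 2) (1 / 6320) (by norm_num),
      ev1 (Jm / 2) (23 / 395000) (by norm_num), ev1 (1 / κ1) (161 / 80) (by norm_num),
      ev1 2 (1 / 6480) (by norm_num), ev1 (2 * d + 3) (2 / 10403) (by norm_num),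
      ev1 6 7 (by norm_num)] with t a1 a2 a3 a4 a5 a6 a7 a8 a9 a10 a11 a12 a13
    exact ⟨⟨a1, a2⟩, ⟨a3, a4⟩, ⟨a5, a6⟩, ⟨a7, a8⟩, ⟨a9, a10⟩, ⟨a11, a12⟩, a13⟩)
  refine ⟨min t0 c0, lt_min ht0 hc0, ?_⟩
  intro μ hμp hμb M V hM hV hvV lam hlam hlam0
  have hlam1 : lam ≤ 1 := (hlam0.trans (min_le_left _ _)).trans ht01
  obtain ⟨⟨a1, a2⟩, ⟨a3, a4⟩, ⟨a5, a6⟩, ⟨a7, a8⟩, ⟨a9, a10⟩, ⟨a11, a12⟩, a13⟩ :=
    hev lam hlam (hlam0.trans (min_le_left _ _))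
  obtain ⟨G, hG, hP, hGp⟩ := h4 lam hlam (hlam0.trans (min_le_right _ _)) μ hμp hμb M V hM hV hvV
  have hV0 : 0 < V := by linarith
  have hpw : ∀ p q : ℝ, lam ^ p * lam ^ q = lam ^ (p + q) := fun p q =>
    (Real.rpow_add hlam p q).symm
  have hpos : ∀ p : ℝ, 0 < lam ^ p := fun p => Real.rpow_pos_of_pos hlam p
  have hone : ∀ p : ℝ, p ≤ 0 → 1 ≤ lam ^ p := fun p hp =>
    Real.one_le_rpow_of_pos_of_le_one_of_nonpos hlam hlam1 hp
  have hle1 : ∀ p : ℝ, 0 ≤ p → lam ^ p ≤ 1 := fun p hp =>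
    Real.rpow_le_one hlam.le hlam1 hp
  obtain ⟨X, hX⟩ : ∃ X, X = lam ^ (-(1 / 103) : ℝ) := ⟨_, rfl⟩
  obtain ⟨Y, hY⟩ : ∃ Y, Y = lam ^ (-(1 / 101) : ℝ) := ⟨_, rfl⟩
  have hX1 : 1 ≤ X := by rw [hX]; exact hone _ (by norm_num)
  have hXY : (2 * d + 3) * X ≤ Y := by
    have e1 : X = lam ^ (2 / 10403 : ℝ) * Y := by
      rw [hX, hY, hpw]
      norm_num
    have hY0 : 0 < Y := by rw [hY]; exact hpos _
    calc (2 * (d : ℝ) + 3) * X = ((2 * d + 3) * lam ^ (2 / 10403 : ℝ)) * Y := by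
          rw [e1]
          ring
      _ ≤ 1 * Y := by gcongr
      _ = Y := one_mul Y
  have hXY1 : X ≤ Y := by
    have : (1 : ℝ) * X ≤ (2 * d + 3) * X := by
      gcongr
      linarith
    linarith
  rw [← hY] at hP
  obtain ⟨G', hG', hP', hGp'⟩ := Tor.union μ G hG (Real.exp (-Y)) (Real.exp_pos _).le hP
    ⌊Real.exp X⌋₊
  have hNX : ((⌊Real.exp X⌋₊ : ℕ) : ℝ) ≤ Real.exp X := Nat.floor_le (Real.exp_pos _).le
  refine ⟨G', hG', ?_, ?_⟩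
  · rw [← hX]
    have := Pool.Agent.H189.Loc.exp_count d X Y hX1 hXY _ hNX
    linarith
  intro ω hω L _ hL1 hL2 ι _ _ ψ E hEB ϖ hϖ1 hϖ2 n hn α β hα hβ hαβ
  rw [← hX] at hL2
  obtain ⟨hωG, hωs⟩ := hGp' ω hω
  have hLN : L ≤ ⌊Real.exp X⌋₊ := Nat.le_floor hL2
  have hωb := (hGp ω hωG).1
  -- the box
  have hL6 : (6 : ℝ) ≤ L := by
    refine le_trans ?_ hL1
    rw [Real.rpow_neg hlam.le, le_inv_comm₀ (by norm_num) (hpos _)]
    rw [inv_eq_one_div, le_div_iff₀ (by norm_num)]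
    linarith
  have hL0 : (0 : ℝ) < L := by linarith
  have hL6' : 6 ≤ L := by exact_mod_cast hL6
  obtain ⟨c, hc⟩ : ∃ c : Zd d, c = fun _ => ((L / 2 : ℕ) : ℤ) := ⟨_, rfl⟩
  obtain ⟨R, hR⟩ : ∃ R : ℝ, R = L / 3 := ⟨_, rfl⟩
  have hc1 : ∀ i, R ≤ c i ∧ R + 1 ≤ L - c i := by
    intro i
    rw [hc, hR]
    have e1 : 2 * (L / 2) ≤ L := Nat.mul_div_le L 2
    have e2 : L ≤ 2 * (L / 2) + 1 := by omega
    have e3 : 2 * ((L / 2 : ℕ) : ℝ) ≤ L := by exact_mod_cast e1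
    have e4 : (L : ℝ) ≤ 2 * ((L / 2 : ℕ) : ℝ) + 1 := by exact_mod_cast e2
    constructor
    · rw [Int.cast_natCast]
      linarith
    · rw [Int.cast_natCast]
      linarith
  have hcn : ‖c‖ ≤ Real.exp Y := by
    refine le_trans ?_ (hL2.trans (Real.exp_le_exp.2 hXY1))
    refine (pi_norm_le_iff_of_nonneg hL0.le).2 fun i => ?_
    rw [hc]
    have e1 : L / 2 ≤ L := Nat.div_le_self L 2
    have e3 : ((L / 2 : ℕ) : ℝ) ≤ L := by exact_mod_cast e1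
    simp only [Int.norm_natCast]
    exact e3
  have hinvL : 1 / (L : ℝ) ≤ lam ^ (7 : ℝ) := by
    rw [Real.rpow_neg hlam.le] at hL1
    rw [one_div, inv_le_comm₀ hL0 (hpos _)]
    exact hL1
  obtain ⟨N, hN⟩ : ∃ N : ℝ, N = (Fintype.card (TT d L) : ℝ) := ⟨_, rfl⟩
  have hN0 : 0 ≤ N := by rw [hN]; positivity
  obtain ⟨δ, hδ⟩ : ∃ δ, δ = lam ^ (1 / 200 : ℝ) + 60 * d * lam ^ (37 / 40 : ℝ) := ⟨_, rfl⟩
  have hδ1 : δ ≤ 1 := by rw [hδ]; linarith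
  have hδ0 : 0 ≤ δ := by rw [hδ]; have := hpos (1 / 200); have := hpos (37 / 40); positivity
  obtain ⟨s2, hs2⟩ : ∃ s2, s2 = lam ^ 2 * V := ⟨_, rfl⟩
  have hs20 : 0 < s2 := by rw [hs2]; positivity
  rw [← hs2] at hn
  -- the law at one energy
  have hone1 : ∀ η : ℝ, lam ^ (81 / 40 : ℝ) ≤ η → η ≤ lam ^ (161 / 80 : ℝ) →
      ∀ e : ℝ, |2 * (d : ℝ) + lam * M - e| ≤ 2 * d - κ1 → ∀ n' : Fin d → ℤ,
      ∑ i, (2 * Real.pi * n' i / L) ^ 2 ≤ 2 * K * Q * (η * s2) →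
      |∑ j, ∑ k, ‖mel ψ (wv n') j k‖ ^ 2 * pk η (E j) (E k) e -
        N * Tg (fun E => GF (F0 d) (E : ℂ)) (fun E => GF (F1 d) (E : ℂ)) η s2
          (2 * d + lam * M - e) (fun i => 2 * Real.pi * n' i / L)| ≤ N * δ := by
    intro η hη1 hη2 e he n' hn'
    have hη0 : 0 < η := (hpos _).trans_le hη1
    have hηone : η ≤ 1 := hη2.trans (hle1 _ (by norm_num))
    have h5 := det1 (L := L) (by omega : 0 < d) lam b hlam hωb c R (by rw [hR]; linarith) hc1 e η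
      hη0 hηone (fun p => Tg (fun E => GF (F0 d) (E : ℂ)) (fun E => GF (F1 d) (E : ℂ)) η s2
          (2 * d + lam * M - e) p) (fun p => ∑ i, p i ^ 2 ≤ 2 * K * Q * (η * s2))
      (lam ^ (1 / 200 : ℝ)) (fun s u hu p hp => by
        rw [hs2]
        exact (hGp _ (hωs L hLN s)).2 c (by rw [← hY]; exact hcn) e he η hη1 hη2 u hu p
          (by rw [← hs2]; exact hp)) hEB n' hn'
    rw [hN]
    refine h5.trans ?_
    have herr : 20 * d * (η⁻¹) ^ 3 / R ≤ 60 * d * lam ^ (37 / 40 : ℝ) := by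
      have e1 : (η⁻¹) ^ 3 ≤ lam ^ (-(243 / 40) : ℝ) := by
        have e2 : lam ^ (-(243 / 40) : ℝ) = ((lam ^ (81 / 40 : ℝ))⁻¹) ^ 3 := by
          rw [← Real.rpow_neg hlam.le, ← Real.rpow_natCast, ← Real.rpow_mul hlam.le]
          norm_num
        rw [e2]
        have := hpos (81 / 40)
        gcongr
      have e2 : lam ^ (37 / 40 : ℝ) = lam ^ (-(243 / 40) : ℝ) * lam ^ (7 : ℝ) := by
        rw [hpw]
        norm_num
      rw [e2, hR]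
      have := (hpos (-(243 / 40))).le
      calc 20 * (d : ℝ) * (η⁻¹) ^ 3 / (L / 3) = 60 * d * (η⁻¹) ^ 3 * (1 / L) := by
            field_simp
            norm_num
        _ ≤ 60 * d * lam ^ (-(243 / 40) : ℝ) * lam ^ (7 : ℝ) := by
            gcongr
        _ = _ := by ring
    have : (0 : ℝ) ≤ (Fintype.card (TT d L) : ℝ) := by positivity
    rw [hδ]
    gcongr
  -- density bound
  have hdens : ∀ η : ℝ, lam ^ (81 / 40 : ℝ) ≤ η → η ≤ lam ^ (161 / 80 : ℝ) →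
      ∀ e : ℝ, |2 * (d : ℝ) + lam * M - e| ≤ 2 * d - κ1 →
      ∑ k, η / ((E k - e) ^ 2 + η ^ 2) ≤ (C0 + 1) * N := by
    intro η hη1 hη2 e he
    have hη0 : 0 < η := (hpos _).trans_le hη1
    have h5 := hone1 η hη1 hη2 e he 0 (by simp; positivity)
    rw [zero_sum hEB η e hη0] at h5
    have e1 : Tg (fun E => GF (F0 d) (E : ℂ)) (fun E => GF (F1 d) (E : ℂ)) η s2
          (2 * d + lam * M - e) (fun i => 2 * Real.pi * ((0 : Fin d → ℤ) i : ℤ) / L) =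
          gI d (2 * d + lam * M - e) := by
      unfold Tg
      have e2 : ∑ i : Fin d, (2 * Real.pi * (((0 : Fin d → ℤ) i : ℤ) : ℝ) / L) ^ 2 = 0 := by simp
      simp only [e2, zero_div, zero_mul, add_zero, div_one]
      rfl
    rw [e1] at h5
    have h6 := (abs_le.1 h5).2
    have h7 := hgC (2 * d + lam * M - e)
    have h8 : N * gI d (2 * d + lam * M - e) ≤ N * C0 := by gcongr
    have h9 : N * δ ≤ N * 1 := by gcongr
    linarith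
  have hϖ0 : 0 < ϖ := (hpos _).trans_le hϖ1
  obtain ⟨ρ, hρ⟩ : ∃ ρ, ρ = lam ^ (161 / 80 : ℝ) := ⟨_, rfl⟩
  have hρ0 : 0 < ρ := by rw [hρ]; exact hpos _
  have hρκ : ρ ≤ κ1 := by
    rw [one_div_mul_eq_div, div_le_one hκ10] at a10
    rw [hρ]
    exact a10
  have hβα : lam ^ (2 + 1 / 81 : ℝ) ≤ β - α := by linarith
  have hβα0 : 0 < β - α := (hpos _).trans_le hβα
  have hρβ : ρ ≤ lam ^ (1 / 6480 : ℝ) * (β - α) := by
    have e1 : ρ = lam ^ (1 / 6480 : ℝ) * lam ^ (2 + 1 / 81 : ℝ) := by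
      rw [hρ, hpw]
      norm_num
    rw [e1]
    have := hpos (1 / 6480)
    gcongr
  have hbulk : ∀ e, α - ρ ≤ e → e ≤ β + ρ → |2 * (d : ℝ) + lam * M - e| ≤ 2 * d - κ1 := by
    intro e he1 he2
    rw [abs_le]
    constructor <;> linarith
  have hrange : ∀ y : ℝ, 1 ≤ Q * y → y ≤ Jm → lam ^ (81 / 40 : ℝ) ≤ y * ϖ / 2 ∧
      y * ϖ / 2 ≤ lam ^ (161 / 80 : ℝ) := by
    intro y hy1 hy2
    have hy0 : 0 < y := by
      by_contra hcon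
      push Not at hcon
      nlinarith
    constructor
    · have e1 : lam ^ (81 / 40 : ℝ) = lam ^ (1 / 1640 : ℝ) * lam ^ (2 + 1 / 41 : ℝ) := by
        rw [hpw]
        norm_num
      have e2 : 2 * lam ^ (1 / 1640 : ℝ) ≤ y := by
        have h5 : Q * (2 * lam ^ (1 / 1640 : ℝ)) ≤ Q * y := by linarith
        exact le_of_mul_le_mul_left h5 hQ0
      rw [e1]
      have := hpos (2 + 1 / 41)
      have := hpos (1 / 1640)
      calc lam ^ (1 / 1640 : ℝ) * lam ^ (2 + 1 / 41 : ℝ) ≤ lam ^ (1 / 1640 : ℝ) * ϖ := by gcongr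
        _ ≤ y / 2 * ϖ := by
            gcongr
            linarith
        _ = y * ϖ / 2 := by ring
    · have e1 : lam ^ (161 / 80 : ℝ) * lam ^ (1 / 6320 : ℝ) = lam ^ (2 + 1 / 79 : ℝ) := by
        rw [hpw]
        norm_num
      have := hpos (161 / 80)
      have := hpos (1 / 6320)
      calc y * ϖ / 2 ≤ Jm * lam ^ (2 + 1 / 79 : ℝ) / 2 := by gcongr
        _ = (Jm / 2 * lam ^ (1 / 6320 : ℝ)) * lam ^ (161 / 80 : ℝ) := by rw [← e1]; ring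
        _ ≤ 1 * lam ^ (161 / 80 : ℝ) := by gcongr
        _ = _ := one_mul _
  have hmom : ∀ y : ℝ, 1 ≤ Q * y → ∑ i, (2 * Real.pi * n i / L) ^ 2 ≤
      2 * K * Q * (y * ϖ / 2 * s2) := by
    intro y hy
    refine hn.trans ?_
    calc K * (ϖ * s2) = K * (ϖ * s2) * 1 := by ring
      _ ≤ K * (ϖ * s2) * (Q * y) := by gcongr
      _ = _ := by ring
  obtain ⟨P2, hP2⟩ : ∃ P2, P2 = ∑ i, (2 * Real.pi * n i / L) ^ 2 := ⟨_, rfl⟩
  have hP20 : 0 ≤ P2 := by rw [hP2]; exact Finset.sum_nonneg fun i _ => sq_nonneg _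
  obtain ⟨gf, hgf⟩ : ∃ gf : ℝ → ℝ, gf = fun e => 2 * Dc d (2 * d + lam * M - e) * P2 /
      (ϖ * s2) := ⟨_, rfl⟩
  have hprofile : ∀ y : ℝ, 0 < y → 1 ≤ Q * y → y ≤ Jm → ∀ e, α ≤ e → e ≤ β →
      |∑ j, ∑ k, ‖mel ψ (wv n) j k‖ ^ 2 * pk (y * ϖ / 2) (E j) (E k) e -
        N * (gI d (2 * d + lam * M - e) * (y / (y + gf e)))| ≤ N * δ := by
    intro y hy0 hy1 hy2 e he1 he2
    obtain ⟨hr1, hr2⟩ := hrange y hy1 hy2
    have h5 := hone1 (y * ϖ / 2) hr1 hr2 e (hbulk e (by linarith) (by linarith)) n (hmom y hy1)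
    rw [Tg_form y ϖ s2 _ _ hy0 hϖ0 hs20 (Pool.Agent.H189.W.Dc_nonneg d hd _)] at h5
    rw [hgf, hP2]
    exact h5
  obtain ⟨ζ, hζ⟩ : ∃ ζ, ζ = lam ^ (1 / 20000 : ℝ) := ⟨_, rfl⟩
  have hζ0 : 0 ≤ ζ := by rw [hζ]; exact (hpos _).le
  have hζ1 : ζ ≤ 1 := by rw [hζ]; exact hle1 _ (by norm_num)
  have hζb : ∀ y : ℝ, 0 ≤ y → y ≤ Jm → y * ϖ / 2 / ρ ≤ ζ ^ 2 := by
    intro y hy0 hy
    rw [div_le_iff₀ hρ0]
    have e1 : ζ ^ 2 = lam ^ (1 / 10000 : ℝ) := by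
      rw [hζ, ← Real.rpow_natCast, ← Real.rpow_mul hlam.le]
      norm_num
    have e2 : lam ^ (2 + 1 / 79 : ℝ) = lam ^ (23 / 395000 : ℝ) * (lam ^ (1 / 10000 : ℝ) * ρ) := by
      rw [hρ, hpw, hpw]
      norm_num
    rw [e1]
    have := hpos (1 / 10000)
    calc y * ϖ / 2 ≤ Jm * lam ^ (2 + 1 / 79 : ℝ) / 2 := by gcongr
      _ = (Jm / 2 * lam ^ (23 / 395000 : ℝ)) * (lam ^ (1 / 10000 : ℝ) * ρ) := by rw [e2]; ring
      _ ≤ 1 * (lam ^ (1 / 10000 : ℝ) * ρ) := by gcongr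
      _ = _ := one_mul _
  -- continuity
  have hshift : Continuous fun e : ℝ => 2 * (d : ℝ) + lam * M - e := by fun_prop
  have hGc : Continuous fun e => gI d (2 * d + lam * M - e) :=
    (Pool.Agent.H189.W.g0_cont d hd).comp hshift
  have hgc : ContinuousOn gf (Icc α β) := by
    have h1c : Continuous fun E : ℝ => (GF (F1 d) (E : ℂ)).im :=
      Pool.Agent.R988.hol_cont _ _ (Pool.Agent.TH794.QD.hol1 Pool.Agent.W918.BK.Osc.osc d hd)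
    have h6 : ContinuousOn (fun e => Dc d (2 * d + lam * M - e)) (Icc α β) := by
      unfold Dc
      refine ContinuousOn.div (h1c.comp hshift).continuousOn (hGc.pow 2).continuousOn fun e he => ?_
      have h7 := hl (2 * d + lam * M - e) (hbulk e (by linarith [he.1]) (by linarith [he.2]))
      have h8 : 0 < (GF (F0 d) ((2 * d + lam * M - e : ℝ) : ℂ)).im := by linarith [h7.1, h7.2]
      exact (pow_pos h8 2).ne'
    rw [hgf]
    exact ((continuousOn_const.mul h6).mul continuousOn_const).div_const _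
  have hfin := weights E (fun j k => ‖mel ψ (wv n) j k‖ ^ 2) s_leak (fun j k => sq_nonneg _)
    (mel_row ψ hEB.ho hEB.hc (wv n) (wv_norm n)) (mel_col ψ hEB.ho hEB.hc (wv n) (wv_norm n))
    ϖ ρ α β ((C0 + 1) * N) N δ ζ ε1 C0 n1 n2 a J a' J' hJ hJ' hϖ0 hN0 (by positivity)
    (fun i => hζb _ (hJ i).le (hJle i)) (fun i => hζb _ (hJ' i).le (hJle' i)) hζ0 hζ1 hρ0
    (by nlinarith)
    (fun i e he1 he2 => by
      obtain ⟨hr1, hr2⟩ := hrange _ (hQle i) (hJle i)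
      exact hdens _ hr1 hr2 e (hbulk e he1 he2))
    (fun i e he1 he2 => by
      obtain ⟨hr1, hr2⟩ := hrange _ (hQle' i) (hJle' i)
      exact hdens _ hr1 hr2 e (hbulk e he1 he2))
    (fun e he1 he2 => by
      rw [hρ]
      exact hdens _ (Real.rpow_le_rpow_of_exponent_ge hlam hlam1 (by norm_num)) le_rfl e
        (hbulk e he1 he2))
    (fun e => gI d (2 * d + lam * M - e)) gf hGc.continuousOn hgc
    (fun e _ => by
      rw [hgf]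
      have := Pool.Agent.H189.W.Dc_nonneg d hd (2 * d + lam * M - e)
      positivity)
    (fun e _ => by
      rw [abs_of_nonneg (show 0 ≤ gI d (2 * d + lam * M - e) from
        Pool.Agent.H189.W.g0_nonneg d hd _)]
      exact hgC _) hε10.le
    (fun i e he1 he2 => hprofile _ (hJ i) (hQle i) (hJle i) e he1 he2)
    (fun i e he1 he2 => hprofile _ (hJ' i) (hQle' i) (hJle' i) e he1 he2) hlo hup hlim
  rw [← hA] at hfin
  rw [← hN]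
  have hgoal : (fun e => gI d (2 * d + lam * M - e) * (1 - 2 / Real.pi * Real.arctan (gf e))) =
      fun e => gI d (2 * d + lam * M - e) * (1 - 2 / Real.pi * Real.arctan
                (2 * Dc d (2 * d + lam * M - e) * (∑ i, (2 * Real.pi * n i / L) ^ 2) /
                  (ϖ * (lam ^ 2 * V)))) := by
    funext e
    rw [hgf, hP2, hs2]
  simp only [funext_iff] at hgoal
  simp only [hgoal] at hfin
  refine hfin.trans ?_
  exact num_fin A C0 N ρ (β - α) ζ δ ε ε1 (lam ^ (1 / 6480 : ℝ)) (lam ^ (1 / 200 : ℝ))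
    (60 * d * lam ^ (37 / 40 : ℝ)) hA0 hC0.le hN0 hβα0.le hε hε1 hρβ (by rw [hδ]) a3
    (by rw [hζ]; exact a4) a5 (by rw [← mul_assoc]; exact a6) (hpos _).le (by positivity)

end Pool.Agent.H189.ME
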